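import Pool.Agent.P.MP_43acf5_nt.Global

/-! Families of valuations indexed by the embeddings of a separable extension. -/

namespace Pool.Agent.P.MP_43acf5_nt

open Module WithZero Polynomial

variable {Fq : Type*} [Field Fq] [Fintype Fq] {E : Type*} [Field E] [Algebra (RatFunc Fq) E]
  [Algebra Fq E]

/-- The global properties of a family of at most `D` valuations above every place. -/
structure Fam {ι : Type*} [Fintype ι] (D : ℕ) (w : Pl Fq → ι → Valuation E ℝᵐ⁰) : Prop where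
  base : ∀ v i, ∀ y : RatFunc Fq, y ≠ 0 →
    w v i (algebraMap _ E y) = exp ((pdeg v : ℝ) * (log (pval v y) : ℤ))
  card_pos : 0 < Fintype.card ι
  card_le : Fintype.card ι ≤ D
  gap : ∀ v i, ∀ {x y : E}, x ≠ 0 → y ≠ 0 → log (w v i x) < log (w v i y) →
    (pdeg v : ℝ) / D.factorial ≤ log (w v i y) - log (w v i x)
  product : ∀ x : E, x ≠ 0 → ∃ S0 : Finset (Pl Fq), ∀ S, S0 ⊆ S →
    ∑ v ∈ S, ∑ i, log (w v i x) = 0
  units : ∃ U : Finset E, U.card ≤ (Fintype.card Fq) ^ D * D ∧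
    ∀ u : E, (∀ v i, w v i u ≤ 1) → u ∈ U
  core : ∀ (s : ℕ) (V : Submodule Fq E) [FiniteDimensional Fq V] (m : ℕ),
    m ≤ finrank (EE Fq s) (Submodule.span (EE Fq s) (V : Set E)) →
    ∃ M : ℕ, m ≤ M ∧ ∃ S0 : Finset (Pl Fq), ∀ S, S0 ⊆ S →
      ∀ (t A : Pl Fq → ι → ℝ) (κ : Pl Fq → ι → ℕ),
        (∀ v i, 0 ≤ A v i) → (∀ v i, ∀ x ∈ V, w v i x ≤ exp (t v i + A v i)) →
        (∀ v i, finrank Fq V ≤ finrank Fq (ball (w v i) V (t v i)) + κ v i) →
        0 ≤ M * ∑ v ∈ S, ∑ i, t v i + Fintype.card ι *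
          ∑ v ∈ S, (∑ i, κ v i : ℕ) * (∑ i, A v i + ((Fintype.card Fq) ^ s : ℕ) * pdeg v)

omit [Fintype Fq] [Algebra Fq E] in
lemma gap_of_base [FiniteDimensional (RatFunc Fq) E] {D : ℕ} (hD : finrank (RatFunc Fq) E ≤ D)
    {w : Valuation E ℝᵐ⁰} {v : Pl Fq} (hw : ∀ y : RatFunc Fq, y ≠ 0 →
      w (algebraMap _ E y) = exp ((pdeg v : ℝ) * (log (pval v y) : ℤ)))
    {x y : E} (hx : x ≠ 0) (hy : y ≠ 0) (hxy : log (w x) < log (w y)) :
    (pdeg v : ℝ) / D.factorial ≤ log (w y) - log (w x) := by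
  have key : ∀ x : E, x ≠ 0 → ∃ z : ℤ, log (w x) = (pdeg v : ℝ) * z / D.factorial := by
    intro x hx
    obtain ⟨k, hk1, hk2, y, hy, h⟩ := exists_pow_eq_of_finite (F := RatFunc Fq) w hx
    obtain ⟨m, hm⟩ := Nat.dvd_factorial hk1 (hk2.trans hD)
    have h1 := congrArg log h
    rw [hw y hy, log_exp, log_pow, nsmul_eq_mul] at h1
    refine ⟨log (pval v y) * m, ?_⟩
    rw [eq_div_iff (by positivity), hm]
    push_cast
    linear_combination (m : ℝ) * h1
  obtain ⟨a, ha⟩ := key x hx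
  obtain ⟨b, hb⟩ := key y hy
  rw [ha, hb] at hxy ⊢
  have hd : (0 : ℝ) < pdeg v := by exact_mod_cast pdeg_pos v
  have hN : (0 : ℝ) < D.factorial := by positivity
  rw [div_lt_div_iff_of_pos_right hN, mul_lt_mul_iff_right₀ hd] at hxy
  have h1 : a + 1 ≤ b := by exact_mod_cast hxy
  have h2 : (a : ℝ) + 1 ≤ b := by exact_mod_cast h1
  rw [← sub_div]
  gcongr
  nlinarith

section Cl

variable {F : Type*} [Field F] (K : Type*) [Field K] [Algebra F K] {L : Type*} [Field L]
  [Algebra F L] [Algebra K L] [IsScalarTower F K L]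

/-- The restriction of an automorphism to a subfield. -/
def cl (σ : L ≃ₐ[F] L) : K →ₐ[F] L := σ.toAlgHom.comp (IsScalarTower.toAlgHom F K L)

lemma cl_apply (σ : L ≃ₐ[F] L) (x : K) : cl K σ x = σ (algebraMap K L x) := rfl

variable [FiniteDimensional F L] [FiniteDimensional F K] [Normal F L]

lemma sum_cl : ∃ h : ℕ, 0 < h ∧ ∀ f : (K →ₐ[F] L) → ℝ,
    ∑ σ : L ≃ₐ[F] L, f (cl K σ) = h * ∑ c, f c := by
  classical
  have hsurj : ∀ c : K →ₐ[F] L, ∃ σ : L ≃ₐ[F] L, cl K σ = c := by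
    intro c
    refine ⟨AlgEquiv.ofBijective (c.liftNormal L) (Algebra.IsAlgebraic.algHom_bijective _), ?_⟩
    ext x
    exact c.liftNormal_commutes L x
  refine ⟨(Finset.univ.filter fun σ : L ≃ₐ[F] L => cl K σ = cl K 1).card,
    Finset.card_pos.mpr ⟨1, by simp⟩, fun f => ?_⟩
  rw [Finset.sum_comp f (cl K), Finset.image_univ_of_surjective hsurj, Finset.mul_sum]
  refine Finset.sum_congr rfl fun c _ => ?_
  obtain ⟨τ, rfl⟩ := hsurj c
  rw [nsmul_eq_mul]
  congr 2
  refine Finset.card_equiv (Equiv.mulLeft τ⁻¹) fun σ => ?_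
  simp only [Finset.mem_filter, Finset.mem_univ, true_and, AlgHom.ext_iff, cl_apply,
    Equiv.coe_mulLeft, AlgEquiv.mul_apply, AlgEquiv.one_apply]
  refine forall_congr' fun x => ?_
  rw [AlgEquiv.aut_inv, AlgEquiv.symm_apply_eq]

end Cl

variable {L : Type*} [Field L] [Algebra (RatFunc Fq) L] [Algebra Fq L]
  [IsScalarTower Fq (RatFunc Fq) L] [IsScalarTower Fq (RatFunc Fq) E] [Algebra E L]
  [IsScalarTower (RatFunc Fq) E L] [FiniteDimensional (RatFunc Fq) L] [IsGalois (RatFunc Fq) L]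
  [FiniteDimensional (RatFunc Fq) E] {wv : Pl Fq → Valuation L ℝᵐ⁰}

/-- The valuations attached to the embeddings. -/
noncomputable def WE (wv : Pl Fq → Valuation L ℝᵐ⁰) (v : Pl Fq) (c : E →ₐ[RatFunc Fq] L) :
    Valuation E ℝᵐ⁰ :=
  (wv v).comap (c : E →+* L)

lemma Ext.units_emb (h : Ext wv) {D : ℕ} (hD : finrank (RatFunc Fq) E ≤ D) : ∃ U : Finset E,
    U.card ≤ (Fintype.card Fq) ^ D * D ∧
      ∀ u : E, (∀ v (c : E →ₐ[RatFunc Fq] L), WE wv v c u ≤ 1) → u ∈ U := by
  classical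
  set n := Fintype.card (E →ₐ[RatFunc Fq] L)
  have hn : n ≤ D := by
    have := card_algHom_le_finrank (RatFunc Fq) E L
    rw [Nat.card_eq_fintype_card] at this
    exact this.trans hD
  set pol : (Fin n → Fq) → E[X] :=
    fun c => X ^ n + ∑ i : Fin n, C (algebraMap Fq E (c i)) * X ^ (i : ℕ)
  have hdeg : ∀ c, (pol c).natDegree ≤ n := by
    intro c
    refine natDegree_add_le_of_degree_le (by simp) ?_
    refine natDegree_sum_le_of_forall_le _ _ fun i _ => ?_
    exact (natDegree_C_mul_X_pow_le _ _).trans i.2.le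
  refine ⟨Finset.univ.biUnion fun c => (pol c).roots.toFinset, ?_, fun u hu => ?_⟩
  · refine (Finset.card_biUnion_le_card_mul _ _ n fun c _ => ?_).trans ?_
    · exact (Multiset.toFinset_card_le _).trans ((card_roots' _).trans (hdeg c))
    · rw [Finset.card_univ, Fintype.card_fun, Fintype.card_fin]
      exact Nat.mul_le_mul (Nat.pow_le_pow_right (by have := two_le_q Fq; omega) hn) hn
  set p : L[X] := ∏ c : E →ₐ[RatFunc Fq] L, (X - C (c u)) with hp
  have hmon : p.Monic := monic_prod_X_sub_C _ _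
  have hpd : p.natDegree = n := by
    rw [hp, natDegree_finsetProd_X_sub_C_eq_card, Finset.card_univ]
  have hco : ∀ j, ∃ c : Fq, algebraMap Fq L c = p.coeff j := by
    intro j
    obtain ⟨y, hy⟩ : p.coeff j ∈ Set.range (algebraMap (RatFunc Fq) L) := by
      rw [IsGalois.mem_range_algebraMap_iff_fixed]
      intro τ
      have : p.map (τ : L →+* L) = p := by
        rw [hp, Polynomial.map_prod]
        simp only [Polynomial.map_sub, map_X, map_C]
        exact Equiv.prod_comp (AlgEquiv.arrowCongr AlgEquiv.refl τ) fun c => X - C (c u)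
      conv_rhs => rw [← this, coeff_map]
      rfl
    obtain ⟨c, hc⟩ := exists_const_of_le_one (y := y) (by
      intro v
      rw [← h.le_one_iff, hy]
      have := GB.prod (w := wv v) (σ := 1) one_ne_zero Finset.univ
        (fun c : E →ₐ[RatFunc Fq] L => 1) (fun c => X - C (c u))
        (fun c _ => (GB_X_sub_C _).mono (max_le le_rfl (hu v c))) j
      simpa using this)
    exact ⟨c, by rw [← hy, ← hc, ← IsScalarTower.algebraMap_apply]⟩
  choose c hc using hco
  have e : ∀ a : Fq, algebraMap E L (algebraMap Fq E a) = algebraMap Fq L a := by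
    intro a
    rw [IsScalarTower.algebraMap_apply Fq (RatFunc Fq) E, ← IsScalarTower.algebraMap_apply,
      ← IsScalarTower.algebraMap_apply]
  have h1 : (pol fun i => c i).map (algebraMap E L) = p := by
    conv_rhs => rw [hmon.as_sum, hpd, Finset.sum_range]
    simp [pol, Polynomial.map_sum, e, hc]
  have h2 : pol (fun i => c i) ≠ 0 := by
    intro h0
    rw [h0, Polynomial.map_zero] at h1
    exact hmon.ne_zero h1.symm
  refine Finset.mem_biUnion.mpr ⟨fun i => c i, Finset.mem_univ _, ?_⟩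
  rw [Multiset.mem_toFinset, mem_roots h2, IsRoot]
  apply (algebraMap E L).injective
  rw [← eval₂_at_apply, eval₂_eq_eval_map, h1, map_zero, hp, eval_prod]
  exact Finset.prod_eq_zero (Finset.mem_univ (IsScalarTower.toAlgHom (RatFunc Fq) E L)) (by simp)

lemma Ext.core_emb (h : Ext wv) (s : ℕ) (V : Submodule Fq E) [FiniteDimensional Fq V] (m : ℕ)
    (hm : m ≤ finrank (EE Fq s) (Submodule.span (EE Fq s) (V : Set E))) :
    ∃ M : ℕ, m ≤ M ∧ ∃ S0 : Finset (Pl Fq), ∀ S, S0 ⊆ S →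
      ∀ (t A : Pl Fq → (E →ₐ[RatFunc Fq] L) → ℝ) (κ : Pl Fq → (E →ₐ[RatFunc Fq] L) → ℕ),
        (∀ v i, 0 ≤ A v i) → (∀ v i, ∀ x ∈ V, WE wv v i x ≤ exp (t v i + A v i)) →
        (∀ v i, finrank Fq V ≤ finrank Fq (ball (WE wv v i) V (t v i)) + κ v i) →
        0 ≤ M * ∑ v ∈ S, ∑ i, t v i + Fintype.card (E →ₐ[RatFunc Fq] L) *
          ∑ v ∈ S, (∑ i, κ v i : ℕ) * (∑ i, A v i + ((Fintype.card Fq) ^ s : ℕ) * pdeg v) := by
  classical
  set em : E →ₗ[Fq] L :=
    (IsScalarTower.toAlgHom (RatFunc Fq) E L).toLinearMap.restrictScalars Fq with hem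
  have hem' : ∀ x, em x = algebraMap E L x := fun _ => rfl
  have hinj : Function.Injective em := (algebraMap E L).injective
  set V' := V.map em
  obtain ⟨I, hI1, hI2, hI3⟩ := exists_rows V' ((Fintype.card Fq) ^ s)
  have hM : m ≤ I.card := by
    obtain ⟨ι, a, ha, hsp, hli⟩ := exists_linearIndependent' (EE Fq s) (fun x : V => (x : E))
    have hVfin : Finite V := Module.finite_of_finite Fq
    have : Finite ι := Finite.of_injective a ha
    have := Fintype.ofFinite ι
    have hli' := hli.map' ((IsScalarTower.toAlgHom (RatFunc Fq) E L).toLinearMap.restrictScalars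
      (EE Fq s)) (LinearMap.ker_eq_bot.mpr (algebraMap E L).injective)
    have h1 := card_le_card_rows V' s (I := I) ((hI3 _ le_rfl).trans
      (Submodule.span_mono (Set.image_mono fun p hp => hp.1)))
      (x := fun l => ⟨em (a l), ⟨a l, (a l).2, rfl⟩⟩) hli'
    rw [linearIndependent_iff_card_eq_finrank_span.mp hli, Set.finrank, hsp] at h1
    have : Set.range (fun x : V => (x : E)) = (V : Set E) := Subtype.range_coe
    rw [this] at h1
    exact hm.trans h1
  obtain ⟨x, hx⟩ := exists_det_ne_zero (fun i : I => row V' i) hI2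
  set Δ := (Matrix.of fun (k i : I) => row V' i (x k)).det
  obtain ⟨S0, hS0⟩ := h.product hx
  obtain ⟨hh, hh0, hsum⟩ := sum_cl (F := RatFunc Fq) E (L := L)
  refine ⟨I.card, hM, S0, fun S hS t A κ hA ht hκ => ?_⟩
  refine (mul_nonneg_iff_of_pos_left (show (0 : ℝ) < hh by exact_mod_cast hh0)).mp ?_
  rw [← hS0 S hS, Finset.mul_sum, Finset.mul_sum, ← Finset.sum_add_distrib, Finset.mul_sum]
  refine Finset.sum_le_sum fun v _ => ?_
  obtain ⟨u, hu0, b, hub, hb1, hb2⟩ := h.exists_u v s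
    (a := ∑ i, A v i) (Finset.sum_nonneg fun i _ => hA v i)
  have hb0 : 0 ≤ b := (Finset.sum_nonneg fun i _ => hA v i).trans hb1
  have key : ∀ g : L ≃ₐ[RatFunc Fq] L, log (WW wv v g Δ) ≤
      ∑ i : I, t v (cl E (g * i.1.1)) + (∑ i, κ v i : ℕ) * b := by
    intro g
    have h1 := det_bound (WW wv v g) s (by
        intro y hy j _
        rw [WW_algebraMap, h.le_one_iff] at hy ⊢
        exact pval_HD_le_one v hy j) V' hI1 hI3 x (fun σ => exp (t v (cl E (g * σ))))
      ((V ⊓ ⨅ i ∈ Finset.univ, ball (WE wv v i) V (t v i)).map em)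
      (Submodule.map_mono inf_le_left) (by
        rintro _ ⟨y, hy, rfl⟩ σ
        have := hy.2
        simp only [Finset.mem_univ, iInf_pos, Submodule.coe_iInf, Set.mem_iInter] at this
        exact (this (cl E (g * σ))).2) (κ := ∑ i, κ v i) (by
        rw [← (Submodule.equivMapOfInjective em hinj _).finrank_eq,
          ← (Submodule.equivMapOfInjective em hinj _).finrank_eq]
        exact finrank_iInf_le V Finset.univ _ (fun i => ball_le _ _ _) (κ v) (hκ v)) hu0
      (by rw [WW_algebraMap, hub, ← exp_zero, exp_le_exp]; linarith) (by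
        rintro _ ⟨y, hy, rfl⟩ σ
        rw [WW_algebraMap, hub]
        refine (mul_le_mul_right (ht v (cl E (g * σ)) y hy) _).trans ?_
        rw [← exp_add, exp_le_exp]
        have := Finset.single_le_sum (f := A v) (fun i _ => hA v i)
          (Finset.mem_univ (cl E (g * σ)))
        linarith)
    have hΔ : WW wv v g Δ ≠ 0 := (WW wv v g).ne_zero_iff.mpr hx
    rw [WW_algebraMap, hub, ← exp_sum, ← exp_log hΔ, ← exp_nsmul, ← exp_add, exp_le_exp,
      nsmul_eq_mul] at h1
    linarith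
  refine (Finset.sum_le_sum fun g _ => key g).trans ?_
  rw [Finset.sum_add_distrib, Finset.sum_comm, hsum fun _ => (∑ i, κ v i : ℕ) * b,
    Finset.sum_const, Finset.card_univ, nsmul_eq_mul]
  have h2 : ∑ i : I, ∑ g : L ≃ₐ[RatFunc Fq] L, t v (cl E (g * i.1.1)) =
      hh * (I.card * ∑ i, t v i) := by
    have : ∀ i : I, ∑ g : L ≃ₐ[RatFunc Fq] L, t v (cl E (g * i.1.1)) = hh * ∑ i, t v i :=
      fun i => (Equiv.sum_comp (Equiv.mulRight i.1.1) fun g => t v (cl E g)).trans (hsum _)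
    simp only [this, Finset.sum_const, Finset.card_univ, Fintype.card_coe, nsmul_eq_mul]
    ring
  rw [h2, mul_add]
  gcongr

lemma Ext.fam (h : Ext wv) {D : ℕ} (hD : finrank (RatFunc Fq) E ≤ D) :
    Fam D (WE (E := E) wv) := by
  have hbase : ∀ v (i : E →ₐ[RatFunc Fq] L), ∀ y : RatFunc Fq, y ≠ 0 →
      WE wv v i (algebraMap _ E y) = exp ((pdeg v : ℝ) * (log (pval v y) : ℤ)) := by
    intro v i y hy
    rw [← h.base v y hy, ← i.commutes]
    rfl
  refine ⟨hbase, Fintype.card_pos_iff.mpr ⟨IsScalarTower.toAlgHom _ E L⟩, ?_,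
    fun v i => gap_of_base hD (hbase v i), fun x hx => ?_, h.units_emb hD, h.core_emb⟩
  · have := card_algHom_le_finrank (RatFunc Fq) E L
    rw [Nat.card_eq_fintype_card] at this
    exact this.trans hD
  · obtain ⟨S0, hS0⟩ := h.product (x := algebraMap E L x) (by simpa using hx)
    obtain ⟨hh, hh0, hsum⟩ := sum_cl (F := RatFunc Fq) E (L := L)
    refine ⟨S0, fun S hS => ?_⟩
    have h1 := hS0 S hS
    have h2 : ∀ v, ∑ σ : L ≃ₐ[RatFunc Fq] L, log (WW wv v σ (algebraMap E L x)) =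
        hh * ∑ i : E →ₐ[RatFunc Fq] L, log (WE wv v i x) :=
      fun v => hsum fun c => log (WE wv v c x)
    simp only [h2, ← Finset.mul_sum] at h1
    exact (mul_eq_zero.mp h1).resolve_left (by exact_mod_cast hh0.ne')

end Pool.Agent.P.MP_43acf5_nt
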