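import Pool.Agent.P.MP_43acf5_nt.Q.Prim

/-! Cyclic submodules whose annihilator has only small primary parts. -/

namespace Pool.Agent.P.MP_43acf5_nt

open Module WithZero Polynomial

section Alg

variable {K M : Type*} [Field K] [AddCommGroup M] [Module K M] {Φ : Module.End K M} {x : M}
  {a : K[X]}

lemma ann_mul (hann : ∀ b, (aeval Φ b : Module.End K M) x = 0 ↔ a ∣ b) {g c : K[X]}
    (hg : g ≠ 0) (h : a = g * c) (b : K[X]) :
    (aeval Φ b : Module.End K M) ((aeval Φ g : Module.End K M) x) = 0 ↔ c ∣ b := by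
  rw [aeval_aeval, hann, h, mul_comm g]
  exact mul_dvd_mul_iff_right hg

lemma finrank_cyc_dvd (ha : a.Monic) (hann : ∀ b, (aeval Φ b : Module.End K M) x = 0 ↔ a ∣ b)
    {g : K[X]} (hg : g.Monic) (h : g ∣ a) :
    finrank K (cyc Φ ((aeval Φ g : Module.End K M) x)) + g.natDegree = a.natDegree := by
  obtain ⟨c, hc⟩ := h
  have hcm : c.Monic := hg.of_mul_monic_left (hc ▸ ha)
  rw [(finrank_cyc hcm (ann_mul hann hg.ne_zero hc)).2, hc, hg.natDegree_mul hcm, add_comm]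

lemma mem_cyc_dvd (hann : ∀ b, (aeval Φ b : Module.End K M) x = 0 ↔ a ∣ b) {g : K[X]}
    (h : g ∣ a) (b : K[X]) :
    (aeval Φ b : Module.End K M) x ∈ cyc Φ ((aeval Φ g : Module.End K M) x) ↔ g ∣ b := by
  constructor
  · intro hb
    obtain ⟨c, hc⟩ := mem_cyc.mp hb
    rw [aeval_aeval, ← sub_eq_zero, ← LinearMap.sub_apply, ← map_sub, hann] at hc
    exact (dvd_sub_right (dvd_mul_left _ _)).mp (h.trans hc)
  · rintro ⟨c, rfl⟩
    exact mem_cyc.mpr ⟨c, by rw [aeval_aeval, mul_comm]⟩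

lemma cyc_aeval_le (b : K[X]) : cyc Φ ((aeval Φ b : Module.End K M) x) ≤ cyc Φ x := by
  intro z hz
  obtain ⟨c, rfl⟩ := mem_cyc.mp hz
  exact mem_cyc.mpr ⟨c * b, by rw [aeval_aeval]⟩

lemma cyc_le_of_dvd {g g' : K[X]} (h : g ∣ g') :
    cyc Φ ((aeval Φ g' : Module.End K M) x) ≤ cyc Φ ((aeval Φ g : Module.End K M) x) := by
  obtain ⟨c, rfl⟩ := h
  rw [mul_comm, ← aeval_aeval]
  exact cyc_aeval_le _

lemma self_mem_cyc (y : M) : y ∈ cyc Φ y := mem_cyc.mpr ⟨1, by simp⟩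

lemma stable_eq_cyc (ha : a ≠ 0) (hann : ∀ b, (aeval Φ b : Module.End K M) x = 0 ↔ a ∣ b)
    {B : Submodule K M} (hle : B ≤ cyc Φ x) (hB : ∀ y ∈ B, Φ y ∈ B) :
    ∃ g : K[X], g.Monic ∧ g ∣ a ∧ B = cyc Φ ((aeval Φ g : Module.End K M) x) := by
  classical
  let I : Ideal K[X] :=
    { carrier := {b | (aeval Φ b : Module.End K M) x ∈ B}
      add_mem' := fun {b c} hb hc => by
        simp only [Set.mem_ofPred_eq] at hb hc ⊢
        rw [map_add, LinearMap.add_apply]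
        exact B.add_mem hb hc
      zero_mem' := by simp
      smul_mem' := fun c b hb => by
        simp only [Set.mem_ofPred_eq] at hb ⊢
        rw [smul_eq_mul, ← aeval_aeval]
        exact aeval_mem hB _ hb }
  obtain ⟨g, hg⟩ := (IsPrincipalIdealRing.principal I).principal
  have hI : ∀ b, (aeval Φ b : Module.End K M) x ∈ B ↔ normalize g ∣ b := by
    intro b
    rw [normalize_dvd_iff, ← Ideal.mem_span_singleton]
    change b ∈ I ↔ _
    rw [hg]
  have h1 : normalize g ∣ a := by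
    rw [← hI, (hann _).mpr dvd_rfl]
    exact B.zero_mem
  have h2 : g ≠ 0 := by
    rintro rfl
    exact ha (by simpa using h1)
  refine ⟨normalize g, monic_normalize h2, h1, le_antisymm (fun y hy => ?_) fun y hy => ?_⟩
  · obtain ⟨b, rfl⟩ := mem_cyc.mp (hle hy)
    exact (mem_cyc_dvd hann h1 b).mpr ((hI b).mp hy)
  · obtain ⟨b, rfl⟩ := mem_cyc.mp hy
    rw [aeval_aeval, hI]
    exact dvd_mul_left _ _

lemma gen_dichotomy (ha : a.Monic) (hann : ∀ b, (aeval Φ b : Module.End K M) x = 0 ↔ a ∣ b)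
    (c : Bool → K[X]) (hc : ∀ j, (c j).Monic) (hac : a = c true * c false) {e : K[X]}
    (he : e.Monic) (hea : e ∣ a) {ρ κ : ℕ} (h1 : ∀ j, ρ + κ + e.natDegree < (c j).natDegree)
    {B : Submodule K M} (hle : B ≤ cyc Φ x) (hB : ∀ y ∈ B, Φ y ∈ B) (hne : B ≠ cyc Φ x) :
    finrank K (B ⊓ cyc Φ ((aeval Φ e : Module.End K M) x) : Submodule K M) + ρ <
        finrank K (cyc Φ ((aeval Φ e : Module.End K M) x)) ∨
      ∃ j, cyc Φ ((aeval Φ (c j) : Module.End K M) x) ⊔ B ≠ cyc Φ x ∧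
        ¬ B ⊓ cyc Φ ((aeval Φ e : Module.End K M) x) ≤
          cyc Φ ((aeval Φ (c j) : Module.End K M) x) ∧
        κ ≤ finrank K (cyc Φ ((aeval Φ (c j) : Module.End K M) x) ⊓ B : Submodule K M) := by
  obtain ⟨l, hl, hla, hlB⟩ := stable_eq_cyc ha.ne_zero hann
    (B := B ⊓ cyc Φ ((aeval Φ e : Module.End K M) x)) (inf_le_left.trans hle)
    (fun y hy => ⟨hB y hy.1, cyc_stable Φ _ y hy.2⟩)
  obtain ⟨g, hg, hga, rfl⟩ := stable_eq_cyc ha.ne_zero hann hle hB
  have hca : ∀ j, c j ∣ a := by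
    rintro (_ | _)
    · exact Dvd.intro_left _ hac.symm
    · exact Dvd.intro _ hac.symm
  have hdeg : a.natDegree = (c true).natDegree + (c false).natDegree := by
    rw [hac, (hc true).natDegree_mul (hc false)]
  have hgl : g ∣ l := by
    have := self_mem_cyc (Φ := Φ) ((aeval Φ l : Module.End K M) x)
    rw [← hlB] at this
    exact (mem_cyc_dvd hann hga l).mp this.1
  have d1 := natDegree_le_of_dvd hgl hl.ne_zero
  have d2 := finrank_cyc_dvd ha hann hl hla
  have d3 := finrank_cyc_dvd ha hann he hea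
  rw [hlB]
  by_cases hbig : ρ + e.natDegree < l.natDegree
  · left; omega
  right
  obtain ⟨P, -, hP, hPg⟩ := exists_monic_irreducible_factor g (by
    intro hu
    rw [hg.eq_one_of_isUnit hu] at hne
    exact hne (by simp))
  obtain ⟨j, hj⟩ : ∃ j, P ∣ c j := by
    rcases hP.prime.dvd_or_dvd (hac ▸ hPg.trans hga) with h | h
    · exact ⟨true, h⟩
    · exact ⟨false, h⟩
  refine ⟨j, fun hh => ?_, fun hh => ?_, ?_⟩
  · have h3 : cyc Φ x ≤ cyc Φ ((aeval Φ P : Module.End K M) x) := by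
      rw [← hh]
      exact sup_le (cyc_le_of_dvd hj) (cyc_le_of_dvd hPg)
    exact hP.not_isUnit (isUnit_of_dvd_one ((mem_cyc_dvd hann (hPg.trans hga) 1).mp
      (h3 (mem_cyc.mpr ⟨1, rfl⟩))))
  · have h3 := natDegree_le_of_dvd ((mem_cyc_dvd hann (hca j) l).mp (hh (self_mem_cyc _)))
      hl.ne_zero
    have := h1 j
    omega
  · obtain ⟨l', hl', hla', hlB'⟩ := stable_eq_cyc ha.ne_zero hann
      (B := cyc Φ ((aeval Φ (c j) : Module.End K M) x) ⊓ cyc Φ ((aeval Φ g : Module.End K M) x))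
      (inf_le_right.trans hle) (fun y hy => ⟨cyc_stable Φ _ y hy.1, cyc_stable Φ _ y hy.2⟩)
    have h3 : l' ∣ c j * g := by
      rw [← mem_cyc_dvd hann hla', ← hlB']
      exact ⟨(mem_cyc_dvd hann (hca j) _).mpr (dvd_mul_right _ _),
        (mem_cyc_dvd hann hga _).mpr (dvd_mul_left _ _)⟩
    have h4 := natDegree_le_of_dvd h3 ((hc j).mul hg).ne_zero
    rw [(hc j).natDegree_mul hg] at h4
    have h5 := finrank_cyc_dvd ha hann hl' hla'
    rw [hlB']
    have := h1 true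
    have := h1 false
    cases j <;> omega

lemma exists_primary_part (ha : a ≠ 0) (P : MI K) :
    ∃ (k : ℕ) (a' : K[X]), ¬ P.1 ∣ a' ∧ a = P.1 ^ k * a' :=
  WfDvdMonoid.max_power_factor ha P.2.2

end Alg

variable {Fq : Type*} [Field Fq] [Fintype Fq] {L : Type*} [Field L] [Algebra (RatFunc Fq) L]
  [Algebra Fq L] [IsScalarTower Fq (RatFunc Fq) L] {d r : ℕ} {Φ : Module.End Fq L}
  {ι : Type*} [Fintype ι] {D : ℕ} {wv : Pl Fq → ι → Valuation L ℝᵐ⁰}

lemma gen_false (h : Fam D wv) (hΦ : IsLin Fq (th Fq L d) r Φ) (hr : 0 < r) {x0 : L} {c : Bool → Fq[X]}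
    (hc : ∀ j, (c j).Monic)
    (hann : ∀ b, (aeval Φ b : Module.End Fq L) x0 = 0 ↔ c true * c false ∣ b)
    {n n0 m s κ u : ℕ} (hn : (c true * c false).natDegree ≤ n) (hu : ∀ j, u ≤ (c j).natDegree)
    (hprim : ∀ (P : MI Fq) (k : ℕ), P.1 ^ k ∣ c true * c false → k * P.1.natDegree ≤ n0)
    (hm0 : 16 * r * D ^ 2 ≤ m)
    (hms : (Fintype.card Fq) ^ d * m < (Fintype.card Fq) ^ s) (N1 : m * (r * m) < u)
    (N2 : r * κ + κ + r + n0 < u)
    (N3 : D.factorial *
      (48 * D * ((Fintype.card Fq) ^ d * n) +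
        3 * (Fintype.card Fq) ^ s * (n + 2)) < (Fintype.card Fq) ^ κ)
    (N4 : (Fintype.card Fq) ^ D * D *
      n ^ (2 * D) < (Fintype.card Fq) ^ (2 * (u - n0))) : False := by
  classical
  set a := c true * c false with hac
  have ha : a.Monic := (hc true).mul (hc false)
  obtain ⟨hfd, hVn⟩ := finrank_cyc ha hann
  have hdeg : a.natDegree = (c true).natDegree + (c false).natDegree :=
    (hc true).natDegree_mul (hc false)
  have hca : ∀ j, c j ∣ a := by
    rintro (_ | _)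
    · exact Dvd.intro_left _ hac.symm
    · exact Dvd.intro _ hac.symm
  have hu1 := hu true
  have hu2 := hu false
  choose k a' ha' haa using exists_primary_part ha.ne_zero
  have hk : ∀ P, (P.1 ^ k P).natDegree ≤ n0 := fun P => by
    rw [natDegree_pow]; exact hprim P _ (Dvd.intro _ (haa P).symm)
  have hkill : ∀ P, ∀ x ∈ cyc Φ x0, (aeval Φ (a' P) : Module.End Fq L)
      ((aeval Φ (P.1 ^ k P) : Module.End Fq L) x) = 0 := by
    intro P x hx
    obtain ⟨b, rfl⟩ := mem_cyc.mp hx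
    rw [aeval_aeval, aeval_aeval, hann, mul_comm (a' P), ← haa]
    exact dvd_mul_right _ _
  obtain ⟨sst, s0, hd, hA⟩ := key_gen h hΦ hr (cyc_stable Φ x0) ha.ne_zero (by
      intro z hz
      obtain ⟨b, rfl⟩ := mem_cyc.mp hz
      rw [aeval_aeval, hann]
      exact dvd_mul_right _ _) (hVn.le.trans hn) hn hm0 hms
    (fun j => cyc Φ ((aeval Φ (c j) : Module.End Fq L) x0)) (fun j => cyc_aeval_le _)
    (fun j => cyc_stable Φ _) (fun j => by
      have := finrank_cyc_dvd ha hann (hc j) (hca j)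
      have := hu j
      omega) (κ := κ) (fun _ => True) (fun _ _ => trivial) (fun P _ => by
      have h1 := finrank_cyc_dvd ha hann (P.2.1.pow (k P)) (Dvd.intro _ (haa P).symm)
      have h2 := hk P
      refine ⟨cyc Φ ((aeval Φ (P.1 ^ k P) : Module.End Fq L) x0), a' P, cyc_aeval_le _,
        cyc_stable Φ _, ha' P, fun z hz => ?_, by omega, fun B hle hB hne =>
          gen_dichotomy ha hann c hc hac (P.2.1.pow _) (Dvd.intro _ (haa P).symm)
            (fun j => by have := hu j; omega) hle hB hne⟩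
      obtain ⟨b, rfl⟩ := mem_cyc.mp hz
      have := hkill P _ (mem_cyc.mpr ⟨b, rfl⟩)
      rwa [aeval_aeval Φ (P.1 ^ k P), mul_comm, ← aeval_aeval] at this) N3
  have hval : ∀ P σ, ∀ x ∈ cyc Φ x0, (aeval Φ (P.1 ^ k P) : Module.End Fq L) x ≠ 0 →
      wv (some P) σ x = exp (sst (some P) σ) := by
    intro P σ x hx hx'
    have hx0 : x ≠ 0 := by
      rintro rfl
      exact hx' (map_zero _)
    have hw : wv (some P) σ x ≠ 0 := (wv (some P) σ).ne_zero_iff.mpr hx0
    have h2 := (log_le_iff_le_exp hw).mpr (hd.top_le (some P) σ x hx)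
    have h3 : s0 (some P) σ - sst (some P) σ ≤ 0 := by
      by_contra hc
      exact hA P trivial σ (lt_max_of_lt_left (not_le.mp hc))
    have h4 : log (wv (some P) σ x) ≤ sst (some P) σ := by linarith
    have h5 := aeval_mem (B := ball (wv (some P) σ) (cyc Φ x0) (log (wv (some P) σ x)))
      (fun y hy => ⟨cyc_stable Φ x0 y hy.1, (hd.loc _ σ).stable (h.th_some d P σ) h4 hy.2⟩)
      (P.1 ^ k P) (x := x) ⟨hx, (exp_log hw).ge⟩
    have h6 := hd.lower_pt h (ha' P) σ hx' (hkill P x hx)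
    have h7 := (log_le_iff_le_exp ((wv (some P) σ).ne_zero_iff.mpr hx')).mpr h5.2
    rw [← exp_log hw]
    congr 1
    linarith
  have hnu : ∀ P, ¬ IsUnit (a' P) := by
    intro P hu
    have h1 := natDegree_mul_le (p := P.1 ^ k P) (q := a' P)
    rw [← haa, natDegree_eq_zero_of_isUnit hu] at h1
    have := hk P
    omega
  obtain ⟨p1, hp1⟩ := exists_monic_irreducible_factor a (by
    intro hu
    have := natDegree_eq_zero_of_isUnit hu
    omega)
  set P1 : MI Fq := ⟨p1, hp1.1, hp1.2.1⟩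
  obtain ⟨p2, hp2⟩ := exists_monic_irreducible_factor (a' P1) (hnu P1)
  set P2 : MI Fq := ⟨p2, hp2.1, hp2.2.1⟩
  have hP1 : P1.1 ∣ a := hp1.2.2
  have hP2 : P2.1 ∣ a := hp2.2.2.trans (Dvd.intro_left _ (haa P1).symm)
  have hne : P1 ≠ P2 := fun e => ha' P1 (e ▸ hp2.2.2)
  have h12 : P1.1 * P2.1 ∣ a :=
    ((P1.2.2.coprime_iff_not_dvd).mpr fun hd => hne (MI.eq_of_dvd hd)).mul_dvd hP1 hP2
  have hdv : ∀ P Q : MI Fq, Q.1 ∣ a → Q ≠ P → Q.1 ∣ a' P := by
    intro P Q hQ hQP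
    rw [haa P] at hQ
    exact (Q.2.2.prime.dvd_or_dvd hQ).resolve_left fun hd =>
      hQP (MI.eq_of_dvd (Q.2.2.prime.dvd_of_dvd_pow hd))
  set Z := cyc Φ ((aeval Φ (P1.1 * P2.1) : Module.End Fq L) x0)
  have : FiniteDimensional Fq Z := Submodule.finiteDimensional_of_le (cyc_aeval_le _)
  obtain ⟨sZ, hsZ⟩ := exists_finset Z
  have hY : ∀ x ∈ sZ.image (x0 + ·), x ∈ cyc Φ x0 ∧
      ∀ P, (aeval Φ (P.1 ^ k P) : Module.End Fq L) x ≠ 0 := by
    intro x hx
    obtain ⟨z, hz, rfl⟩ := Finset.mem_image.mp hx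
    obtain ⟨b, rfl⟩ := mem_cyc.mp ((hsZ z).mp hz)
    have e : x0 + (aeval Φ b : Module.End Fq L) ((aeval Φ (P1.1 * P2.1) : Module.End Fq L) x0) =
        (aeval Φ (1 + b * (P1.1 * P2.1)) : Module.End Fq L) x0 := by simp
    rw [e]
    refine ⟨mem_cyc.mpr ⟨_, rfl⟩, fun P h0 => ?_⟩
    rw [aeval_aeval, hann] at h0
    conv_lhs at h0 => rw [haa P]
    rw [mul_dvd_mul_iff_left (pow_ne_zero _ P.2.2.ne_zero)] at h0
    by_cases hP : P1 = P
    · have h1 := (hdv P P2 hP2 (hP ▸ hne.symm)).trans h0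
      exact P2.2.2.not_isUnit (isUnit_of_dvd_one
        ((dvd_add_left ((dvd_mul_left _ _).mul_left _)).mp h1))
    · have h1 := (hdv P P1 hP1 hP).trans h0
      exact P1.2.2.not_isUnit (isUnit_of_dvd_one
        ((dvd_add_left ((dvd_mul_right _ _).mul_left _)).mp h1))
  have h1 := h.count_set (cyc Φ x0) (sZ.image (x0 + ·))
    (fun x hx => ⟨(hY x hx).1, fun h0 => (hY x hx).2 P1 (by rw [h0, map_zero])⟩) (by omega) P1
    (fun P _ σ x hx y hy => by
      rw [hval P σ x (hY x hx).1 ((hY x hx).2 P), hval P σ y (hY y hy).1 ((hY y hy).2 P)])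
  rw [Finset.card_image_of_injective _ (add_right_injective x0), card_finset_eq Z hsZ] at h1
  have h2 := finrank_cyc_dvd ha hann (P1.2.1.mul P2.2.1) h12
  rw [P1.2.1.natDegree_mul P2.2.1] at h2
  have h3 := hprim P1 1 (by simpa using hP1)
  have h4 := hprim P2 1 (by simpa using hP2)
  have h5 : (Fintype.card Fq) ^ (2 * (u - n0)) ≤ (Fintype.card Fq) ^ finrank Fq Z :=
    Nat.pow_le_pow_right (by have := two_le_q Fq; omega) (by
      change _ ≤ finrank Fq (cyc Φ ((aeval Φ (P1.1 * P2.1) : Module.End Fq L) x0))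
      omega)
  refine absurd (h5.trans (h1.trans ?_)) (not_le.mpr N4)
  rw [hVn]
  gcongr

end Pool.Agent.P.MP_43acf5_nt
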