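import Mathlib

/-! Explicit elementary estimates. -/

namespace Pool.Agent.P.MP_43acf5_nt

lemma aux_four {j : ℕ} (hj : 3 ≤ j) : 3 * (j * (j + 1)) ≤ 4 ^ j := by
  induction j, hj using Nat.le_induction with
  | base => norm_num
  | succ j hj ih => rw [pow_succ]; nlinarith

lemma aux_two {j : ℕ} (hj : 12 ≤ j) : 10 * (j * (2 * j + 1)) < 2 ^ j := by
  induction j, hj using Nat.le_induction with
  | base => norm_num
  | succ j hj ih => rw [pow_succ]; nlinarith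

lemma growth {a y : ℕ} (ha : 1 ≤ a) (hy : 16 * a ^ 2 ≤ y) : 8 * y ^ (2 * a) ≤ 2 ^ y := by
  set j := y / (4 * a) with hj
  have h1 : 4 * a ≤ j := by
    rw [hj, Nat.le_div_iff_mul_le (by omega)]
    nlinarith
  have h2 : y < 4 * a * (j + 1) := Nat.lt_mul_div_succ y (by omega)
  have h3 : 4 * a * j ≤ y := Nat.mul_div_le y (4 * a)
  have h4 : 3 * y ≤ 4 ^ j := by
    refine le_trans ?_ (aux_four (by omega))
    have := Nat.mul_le_mul_right (j + 1) h1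
    omega
  have h5 : (3 * y) ^ (2 * a) ≤ 2 ^ y := by
    refine (Nat.pow_le_pow_left h4 _).trans ?_
    rw [show 4 = 2 ^ 2 by norm_num, ← pow_mul, ← pow_mul]
    exact Nat.pow_le_pow_right (by norm_num) (by nlinarith)
  refine le_trans ?_ h5
  rw [mul_pow]
  refine Nat.mul_le_mul_right _ ?_
  calc 8 ≤ 3 ^ 2 := by norm_num
    _ ≤ 3 ^ (2 * a) := Nat.pow_le_pow_right (by norm_num) (by omega)

lemma num_N3 {q D F d s n l κ : ℕ} (hq : 2 ≤ q) (hF : 1 ≤ F) (hD : D ≤ F) (hs : d ≤ s)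
    (hn : 1 ≤ n) (h1 : 57 * (F * n) < 2 ^ l) (h2 : F ^ 2 + s + l ≤ κ) :
    D.factorial * (48 * D * (q ^ d * n) + 3 * q ^ s * (n + 2)) < q ^ κ := by
  have a1 : D.factorial ≤ q ^ (F ^ 2) := by
    refine (Nat.factorial_le hD).trans ((Nat.factorial_le_pow F).trans ?_)
    rw [sq, pow_mul]
    exact Nat.pow_le_pow_left (Nat.lt_pow_self (by omega)).le _
  have a2 : q ^ d ≤ q ^ s := Nat.pow_le_pow_right (by omega) hs
  have a3 : 48 * D * (q ^ d * n) + 3 * q ^ s * (n + 2) ≤ q ^ s * (57 * (F * n)) := by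
    have b1 : 48 * D * (q ^ d * n) ≤ 48 * F * (q ^ s * n) := by gcongr
    have b2 : n + 2 ≤ 3 * (F * n) := by nlinarith
    have b3 : 3 * q ^ s * (n + 2) ≤ 3 * q ^ s * (3 * (F * n)) := by gcongr
    nlinarith
  have a4 : 57 * (F * n) < q ^ l := h1.trans_le (Nat.pow_le_pow_left hq _)
  calc _ ≤ q ^ (F ^ 2) * (q ^ s * (57 * (F * n))) := Nat.mul_le_mul a1 a3
    _ < q ^ (F ^ 2) * (q ^ s * q ^ l) := by
      have : 0 < q := by omega
      gcongr
    _ = q ^ (F ^ 2 + s + l) := by ring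
    _ ≤ q ^ κ := Nat.pow_le_pow_right (by omega) h2

lemma num_R {r F : ℕ} (hr : 1 ≤ r) (hF : 1 ≤ F) :
    F ≤ r * F ^ 2 ∧ r ≤ r * F ^ 2 ∧ F ^ 2 ≤ r * F ^ 2 ∧ r * F ≤ r * F ^ 2 := by
  have h1 : F ≤ F ^ 2 := Nat.le_self_pow (by norm_num) F
  have h2 : F ^ 2 ≤ r * F ^ 2 := Nat.le_mul_of_pos_left _ hr
  exact ⟨h1.trans h2, Nat.le_mul_of_pos_right _ (by positivity), h2, Nat.mul_le_mul_left _ h1⟩

lemma num_prim {q r D F d n : ℕ} (hq : 2 ≤ q) (hr : 1 ≤ r) (hF : 1 ≤ F) (hD : D ≤ F) (hd : d ≤ F)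
    (hn : 513 * (r * (r * F ^ 2) ^ 2) ≤ n) :
    2 * ((16 * (r * F ^ 2)) * (r * (16 * (r * F ^ 2)))) < n ∧ 6 * r < n ∧
      D.factorial * (48 * D * (q ^ d * n) + 3 * q ^ (d + 16 * (r * F ^ 2)) * (n + 2)) <
        q ^ (n / (3 * r)) ∧ 1 + q ^ D * D * n ^ (2 * D) < q ^ n := by
  obtain ⟨b1, b2, b3, b4⟩ := num_R hr hF
  generalize r * F ^ 2 = R at *
  have c1 : R ≤ R ^ 2 := Nat.le_self_pow (by norm_num) R
  have c2 : R ^ 2 ≤ r * R ^ 2 := Nat.le_mul_of_pos_left _ hr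
  refine ⟨?_, by omega, ?_, ?_⟩
  · have : 2 * (16 * R * (r * (16 * R))) = 512 * (r * R ^ 2) := by ring
    omega
  · set κ := n / (3 * r) with hκ
    have h1 : 171 * R ^ 2 ≤ κ := by
      rw [hκ, Nat.le_div_iff_mul_le (by omega)]
      nlinarith
    have h2 : n < 3 * r * (κ + 1) := Nat.lt_mul_div_succ n (by omega)
    obtain ⟨l, hl⟩ : ∃ l, κ = l + 18 * R := ⟨κ - 18 * R, by omega⟩
    refine num_N3 (l := l) hq hF hD (by omega) (by omega) ?_ (by omega)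
    refine lt_of_le_of_lt ?_ (aux_two (j := l) (by omega))
    calc 57 * (F * n) ≤ 57 * (F * (3 * r * (κ + 1))) := by gcongr
      _ = 171 * (r * F) * (κ + 1) := by ring
      _ ≤ (10 * l) * (2 * l + 1) := Nat.mul_le_mul (by omega) (by omega)
      _ = _ := by ring
  · obtain ⟨y, rfl⟩ : ∃ y, n = F + y := ⟨n - F, by omega⟩
    have h1 := growth (a := 2 * F + 1) (y := y) (by omega) (by nlinarith)
    have h2 : F + y ≤ y ^ 2 := by nlinarith
    have h3 : D * (F + y) ^ (2 * D) ≤ y ^ (2 * (2 * F + 1)) := by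
      rw [pow_mul y]
      refine le_trans ?_ (Nat.pow_le_pow_left h2 _)
      rw [pow_succ']
      exact Nat.mul_le_mul (by omega) (Nat.pow_le_pow_right (by omega) (by omega))
    have h4 : q ^ D ≤ q ^ F := Nat.pow_le_pow_right (by omega) hD
    have h5 : 2 ^ y ≤ q ^ y := Nat.pow_le_pow_left hq _
    have h6 : 0 < y ^ (2 * (2 * F + 1)) := pow_pos (by omega) _
    have h7 : 0 < q ^ F := pow_pos (by omega) _
    rw [mul_assoc, pow_add q]
    have h8 := Nat.mul_le_mul h4 h3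
    have h9 := Nat.mul_le_mul_left (q ^ F) (h1.trans h5)
    have h10 := Nat.mul_pos h7 h6
    generalize y ^ (2 * (2 * F + 1)) = Y at *
    have : q ^ F * (8 * Y) = 8 * (q ^ F * Y) := by ring
    omega

lemma num_gen {q r D F d : ℕ} (hq : 2 ≤ q) (hr : 1 ≤ r) (hF : 1 ≤ F) (hD : D ≤ F) (hd : d ≤ F) :
    (16 * (r * F ^ 2)) * (r * (16 * (r * F ^ 2))) < 593 * (r * (r * F ^ 2) ^ 2) ∧
      r * (39 * (r * F ^ 2)) + 39 * (r * F ^ 2) + r + 513 * (r * (r * F ^ 2) ^ 2) <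
        593 * (r * (r * F ^ 2) ^ 2) ∧
      D.factorial * (48 * D * (q ^ d * (2212 * (r * (r * F ^ 2) ^ 2))) +
        3 * q ^ (d + 16 * (r * F ^ 2)) * (2212 * (r * (r * F ^ 2) ^ 2) + 2)) <
        q ^ (39 * (r * F ^ 2)) ∧
      q ^ D * D * (2212 * (r * (r * F ^ 2) ^ 2)) ^ (2 * D) <
        q ^ (2 * (593 * (r * (r * F ^ 2) ^ 2) - 513 * (r * (r * F ^ 2) ^ 2))) := by
  obtain ⟨b1, b2, b3, b4⟩ := num_R hr hF
  generalize r * F ^ 2 = R at *
  have c1 : R ≤ R ^ 2 := Nat.le_self_pow (by norm_num) R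
  have c2 : R ^ 2 ≤ r * R ^ 2 := Nat.le_mul_of_pos_left _ hr
  have c3 : r * R ≤ r * R ^ 2 := Nat.mul_le_mul_left _ c1
  have c4 : F * (r * R ^ 2) ≤ 2 ^ (3 * R) := by
    calc F * (r * R ^ 2) = (r * F) * R ^ 2 := by ring
      _ ≤ R * R ^ 2 := Nat.mul_le_mul_right _ b4
      _ = R ^ 3 := by ring
      _ ≤ (2 ^ R) ^ 3 := Nat.pow_le_pow_left (Nat.lt_pow_self (by norm_num)).le _
      _ = _ := by rw [← pow_mul, mul_comm]
  have c5 : 0 < 2 ^ (3 * R) := by positivity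
  refine ⟨?_, ?_, ?_, ?_⟩
  · have : 16 * R * (r * (16 * R)) = 256 * (r * R ^ 2) := by ring
    omega
  · have : r * (39 * R) = 39 * (r * R) := by ring
    omega
  · refine num_N3 (l := 21 * R) hq hF hD (by omega) (by omega) ?_ (by omega)
    have h1 : 2 ^ 18 ≤ 2 ^ (18 * R) := Nat.pow_le_pow_right (by norm_num) (by omega)
    rw [show 21 * R = 18 * R + 3 * R by ring, pow_add]
    have h3 := Nat.mul_le_mul_right (2 ^ (3 * R)) h1
    have : F * (2212 * (r * R ^ 2)) = 2212 * (F * (r * R ^ 2)) := by ring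
    omega
  · have h1 : 2212 * (r * R ^ 2) ≤ q ^ (15 * R) := by
      refine le_trans ?_ (Nat.pow_le_pow_left hq _)
      have h1 : 2 ^ 12 ≤ 2 ^ (12 * R) := Nat.pow_le_pow_right (by norm_num) (by omega)
      rw [show 15 * R = 12 * R + 3 * R by ring, pow_add]
      have h3 := Nat.mul_le_mul_right (2 ^ (3 * R)) h1
      have h4 : r * R ^ 2 ≤ F * (r * R ^ 2) := Nat.le_mul_of_pos_left _ hF
      omega
    have h2 : (2212 * (r * R ^ 2)) ^ (2 * D) ≤ q ^ (15 * R * (2 * D)) := by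
      rw [pow_mul q]; exact Nat.pow_le_pow_left h1 _
    have h3 : D < q ^ D := Nat.lt_pow_self (by omega)
    have h4 : R * D ≤ R ^ 2 := by rw [sq]; exact Nat.mul_le_mul_left _ (hD.trans b1)
    have h5 : 0 < q := by omega
    calc _ ≤ q ^ D * D * q ^ (15 * R * (2 * D)) := Nat.mul_le_mul_left _ h2
      _ < q ^ D * q ^ D * q ^ (15 * R * (2 * D)) := by gcongr
      _ = q ^ (D + D + 30 * (R * D)) := by rw [← pow_add, ← pow_add]; congr 1; ring
      _ ≤ _ := Nat.pow_le_pow_right h5 (by omega)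

end Pool.Agent.P.MP_43acf5_nt
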