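import Pool.Agent.P.MP_43acf5_nt.Reduce
import Pool.Agent.P.MP_43acf5_nt.Q.Gen
import Pool.Agent.P.MP_43acf5_nt.Q.Num

/-! The explicit bound for the number of torsion points. -/

namespace Pool.Agent.P.MP_43acf5_nt

open Module Polynomial

section Alg

variable {K M : Type*} [Field K] [AddCommGroup M] [Module K M] {Φ : Module.End K M}

lemma ann_pow {P : K[X]} (hP : Irreducible P) {k : ℕ} {y : M}
    (h1 : (aeval Φ (P ^ (k + 1)) : Module.End K M) y = 0)
    (h2 : (aeval Φ (P ^ k) : Module.End K M) y ≠ 0) (a : K[X]) :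
    (aeval Φ a : Module.End K M) y = 0 ↔ P ^ (k + 1) ∣ a := by
  classical
  constructor
  · intro ha
    obtain ⟨i, hi, u, hu⟩ := (dvd_prime_pow hP.prime (k + 1)).mp
      (EuclideanDomain.gcd_dvd_left (P ^ (k + 1)) a)
    have h3 : (aeval Φ (EuclideanDomain.gcd (P ^ (k + 1)) a) : Module.End K M) y = 0 := by
      rw [EuclideanDomain.gcd_eq_gcd_ab, map_add, LinearMap.add_apply, mul_comm (P ^ (k + 1)),
        mul_comm a, ← aeval_aeval, ← aeval_aeval, h1, ha, map_zero, map_zero, add_zero]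
    have h4 : i = k + 1 := by
      by_contra hne
      obtain ⟨j, rfl⟩ : ∃ j, k = j + i := ⟨k - i, by omega⟩
      apply h2
      rw [pow_add, ← hu, mul_comm _ (u : K[X]), ← mul_assoc, ← aeval_aeval, h3, map_zero]
    rw [← h4, ← hu, Units.mul_right_dvd]
    exact EuclideanDomain.gcd_dvd_right _ _
  · rintro ⟨c, rfl⟩
    rw [mul_comm, ← aeval_aeval, h1, map_zero]

lemma ann_add {a1 a2 : K[X]} (h : IsCoprime a1 a2) {y1 y2 : M}
    (h1 : ∀ b, (aeval Φ b : Module.End K M) y1 = 0 ↔ a1 ∣ b)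
    (h2 : ∀ b, (aeval Φ b : Module.End K M) y2 = 0 ↔ a2 ∣ b) (b : K[X]) :
    (aeval Φ b : Module.End K M) (y1 + y2) = 0 ↔ a1 * a2 ∣ b := by
  constructor
  · intro hb
    have e1 := congrArg (aeval Φ a2 : Module.End K M) hb
    have e2 := congrArg (aeval Φ a1 : Module.End K M) hb
    rw [aeval_aeval, map_zero, map_add, (h2 _).mpr (dvd_mul_right _ _), add_zero, h1] at e1
    rw [aeval_aeval, map_zero, map_add, (h1 _).mpr (dvd_mul_right _ _), zero_add, h2] at e2
    exact h.mul_dvd (h.dvd_of_dvd_mul_left e1) (h.symm.dvd_of_dvd_mul_left e2)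
  · intro hb
    rw [map_add, (h1 _).mpr ((dvd_mul_right _ _).trans hb),
      (h2 _).mpr ((dvd_mul_left _ _).trans hb), add_zero]

lemma exists_dvd_window {g : K[X]} {n0 : ℕ} (h : ∀ P : MI K, P.1 ∣ g → P.1.natDegree ≤ n0)
    {u : ℕ} (hu : u ≤ g.natDegree) :
    ∃ c : K[X], c.Monic ∧ c ∣ g ∧ u ≤ c.natDegree ∧ c.natDegree ≤ u + n0 := by
  induction u with
  | zero => exact ⟨1, monic_one, one_dvd _, by simp, by simp⟩
  | succ u ih =>
    obtain ⟨c, hc, ⟨e, he⟩, h1, h2⟩ := ih (by omega)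
    by_cases h3 : u + 1 ≤ c.natDegree
    · exact ⟨c, hc, ⟨e, he⟩, h3, by omega⟩
    obtain ⟨P, hP1, hP2, hP3⟩ := exists_monic_irreducible_factor e (by
      intro hu'
      have := natDegree_mul_le (p := c) (q := e)
      rw [← he, natDegree_eq_zero_of_isUnit hu'] at this
      omega)
    have h4 := h ⟨P, hP1, hP2⟩ (he ▸ hP3.mul_left c)
    have h5 := hP2.natDegree_pos
    refine ⟨c * P, hc.mul hP1, he ▸ mul_dvd_mul_left c hP3, ?_⟩
    rw [hc.natDegree_mul hP1]
    change P.natDegree ≤ n0 at h4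
    omega

lemma exists_killer {n0 u : ℕ}
    (h1 : ∀ (x0 : M) (P : MI K) (k : ℕ),
      (∀ a, (aeval Φ a : Module.End K M) x0 = 0 ↔ P.1 ^ k ∣ a) → k * P.1.natDegree ≤ n0)
    (h2 : ∀ (x0 : M) (c : Bool → K[X]), (∀ j, (c j).Monic) →
      (c true * c false).natDegree ≤ 2 * (u + n0) → (∀ j, u ≤ (c j).natDegree) →
      (∀ (P : MI K) (k : ℕ), P.1 ^ k ∣ c true * c false → k * P.1.natDegree ≤ n0) →
      ¬ ∀ b, (aeval Φ b : Module.End K M) x0 = 0 ↔ c true * c false ∣ b) (s : Finset M)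
    (hs : ∀ x ∈ s, ∃ a : K[X], a ≠ 0 ∧ (aeval Φ a : Module.End K M) x = 0) :
    ∃ g : K[X], g ≠ 0 ∧ g.natDegree ≤ 2 * u + n0 ∧
      ∀ x ∈ s, (aeval Φ g : Module.End K M) x = 0 := by
  classical
  let I : Ideal K[X] :=
    { carrier := {b | ∀ x ∈ s, (aeval Φ b : Module.End K M) x = 0}
      add_mem' := fun {b c} hb hc x hx => by
        rw [map_add, LinearMap.add_apply, hb x hx, hc x hx, add_zero]
      zero_mem' := by simp
      smul_mem' := fun c b hb x hx => by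
        rw [smul_eq_mul, ← aeval_aeval, hb x hx, map_zero] }
  obtain ⟨g, hg⟩ := (IsPrincipalIdealRing.principal I).principal
  have hI : ∀ b, (∀ x ∈ s, (aeval Φ b : Module.End K M) x = 0) ↔ g ∣ b := by
    intro b
    rw [← Ideal.mem_span_singleton]
    change b ∈ I ↔ _
    rw [hg]
  have hg0 : g ≠ 0 := by
    choose! a ha ha' using hs
    rintro rfl
    refine Finset.prod_ne_zero_iff.mpr ha (zero_dvd_iff.mp ((hI (∏ x ∈ s, a x)).mp ?_))
    intro x hx
    rw [← Finset.prod_erase_mul s a hx, ← aeval_aeval, ha' x hx, map_zero]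
  have hel : ∀ a, a ∣ g → ∃ y, ∀ b, (aeval Φ b : Module.End K M) y = 0 ↔ a ∣ b := by
    intro a
    induction a using UniqueFactorizationMonoid.induction_on_coprime with
    | h0 => exact fun h => absurd (zero_dvd_iff.mp h) hg0
    | h1 hu => exact fun _ => ⟨0, fun b => by simp [hu.dvd]⟩
    | @hpr P k hP =>
      rcases k with _ | k
      · exact fun _ => ⟨0, fun b => by simp⟩
      rintro ⟨c, hc⟩
      have h4 : ¬ ∀ x ∈ s, (aeval Φ (P ^ k * c) : Module.End K M) x = 0 := by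
        rw [hI, hc, pow_succ', mul_assoc]
        intro hd
        have h5 : P ^ k * c ≠ 0 := by
          intro h0
          rw [pow_succ', mul_assoc, h0, mul_zero] at hc
          exact hg0 hc
        conv_rhs at hd => rw [← one_mul (P ^ k * c)]
        exact hP.not_isUnit (isUnit_of_dvd_one ((mul_dvd_mul_iff_right h5).mp hd))
      push Not at h4
      obtain ⟨x, hx, hx'⟩ := h4
      refine ⟨(aeval Φ c : Module.End K M) x, ann_pow hP.irreducible ?_ (by rwa [aeval_aeval])⟩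
      rw [aeval_aeval, ← hc]
      exact (hI g).mpr dvd_rfl x hx
    | hcp hrel ih1 ih2 =>
      intro h
      obtain ⟨y1, hy1⟩ := ih1 ((dvd_mul_right _ _).trans h)
      obtain ⟨y2, hy2⟩ := ih2 ((dvd_mul_left _ _).trans h)
      exact ⟨y1 + y2, ann_add hrel.isCoprime hy1 hy2⟩
  have hp : ∀ (P : MI K) (k : ℕ), P.1 ^ k ∣ g → k * P.1.natDegree ≤ n0 := by
    intro P k hk
    obtain ⟨y, hy⟩ := hel _ hk
    exact h1 y P k hy
  have hp1 : ∀ P : MI K, P.1 ∣ g → P.1.natDegree ≤ n0 := fun P hP => by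
    simpa using hp P 1 (by simpa using hP)
  refine ⟨g, hg0, ?_, (hI g).mpr dvd_rfl⟩
  by_contra hlt
  obtain ⟨c1, hc1, ⟨e, he⟩, a1, a2⟩ := exists_dvd_window hp1 (u := u) (by omega)
  obtain ⟨c2, hc2, hce, a3, a4⟩ := exists_dvd_window (g := e) (u := u)
    (fun P hP => hp1 P (he ▸ hP.mul_left c1)) (by
      have := natDegree_mul_le (p := c1) (q := e)
      rw [← he] at this
      omega)
  have h12 : c1 * c2 ∣ g := he ▸ mul_dvd_mul_left c1 hce
  obtain ⟨y, hy⟩ := hel _ h12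
  refine h2 y (fun j => if j then c1 else c2) ?_ ?_ ?_ (fun P k hk => hp P k (hk.trans h12)) hy
  · rintro (_ | _)
    · exact hc2
    · exact hc1
  · change (c1 * c2).natDegree ≤ _
    rw [hc1.natDegree_mul hc2]
    omega
  · rintro (_ | _)
    · exact a3
    · exact a1

end Alg

variable {Fq : Type*} [Field Fq] [Fintype Fq]

lemma torsion_sep {L : Type*} [Field L] [Algebra (RatFunc Fq) L] [Algebra Fq L]
    [IsScalarTower Fq (RatFunc Fq) L] [FiniteDimensional (RatFunc Fq) L]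
    [Algebra.IsSeparable (RatFunc Fq) L] {r F : ℕ} (hr : 1 ≤ r)
    (hD : finrank (RatFunc Fq) L ≤ F) {Φ : Module.End Fq L} (hΦ : IsLin Fq (th Fq L F) r Φ)
    (s : Finset L)
    (hs : ∀ x ∈ s, ∃ a : Fq[X], a ≠ 0 ∧ (aeval Φ a : Module.End Fq L) x = 0) :
    s.card ≤ (Fintype.card Fq) ^ (1700 * r ^ 4 * F ^ 4) := by
  obtain ⟨p, hp, -, ⟨emb⟩⟩ := exists_splitting (RatFunc Fq) L
  have : IsGalois (RatFunc Fq) p.SplittingField := IsGalois.of_separable_splitting_field hp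
  let : Algebra L p.SplittingField := emb.toRingHom.toAlgebra
  have : IsScalarTower (RatFunc Fq) L p.SplittingField :=
    IsScalarTower.of_algebraMap_eq fun y => (emb.commutes y).symm
  obtain ⟨wv, hw⟩ := exists_ext (Fq := Fq) (L := p.SplittingField)
  have h := hw.fam (E := L) hD
  have hq := two_le_q Fq
  have hF : 1 ≤ F := le_trans Module.finrank_pos hD
  have hm0 : 16 * r * F ^ 2 ≤ 16 * (r * F ^ 2) := (mul_assoc _ _ _).le
  have hms : (Fintype.card Fq) ^ F * (16 * (r * F ^ 2)) <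
      (Fintype.card Fq) ^ (F + 16 * (r * F ^ 2)) := by
    rw [pow_add]
    exact Nat.mul_lt_mul_of_pos_left (Nat.lt_pow_self (by omega)) (by positivity)
  obtain ⟨g, hg0, hg, hgs⟩ := exists_killer (Φ := Φ) (n0 := 513 * (r * (r * F ^ 2) ^ 2))
    (u := 593 * (r * (r * F ^ 2) ^ 2)) (by
      intro x0 P k hann
      by_contra hc
      obtain ⟨N1, N2, N3, N4⟩ := num_prim hq hr hF le_rfl le_rfl (not_le.mp hc).le
      exact prim_false h hΦ hr hann rfl hm0 hms N1 N2 N3 N4) (by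
      intro x0 c hc hn hu hp hann
      obtain ⟨N1, N2, N3, N4⟩ := num_gen hq hr hF le_rfl le_rfl
      exact gen_false h hΦ hr hc hann (hn.trans (by omega)) hu hp hm0 hms N1 N2 N3 N4) s hs
  refine ((isLin_aeval hΦ g).card_roots_le (aeval_th_ne_zero F hg0) s hgs).trans ?_
  refine Nat.pow_le_pow_right (by omega) ((Nat.mul_le_mul_left _ hg).trans ?_)
  calc _ = 1699 * (r ^ 4 * F ^ 4) := by ring
    _ ≤ 1700 * (r ^ 4 * F ^ 4) := Nat.mul_le_mul_right _ (by norm_num)
    _ = _ := by ring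

lemma exists_iota_sep {L : Type*} [Field L] [Algebra (RatFunc Fq) L] [Algebra Fq L]
    [IsScalarTower Fq (RatFunc Fq) L] [FiniteDimensional (RatFunc Fq) L] {d : ℕ}
    (hd : finrank (RatFunc Fq) L ≤ d) :
    ∃ ι : L →ₐ[Fq] separableClosure (RatFunc Fq) L,
      ι (th Fq L 0) = th Fq (separableClosure (RatFunc Fq) L) d := by
  refine ⟨{ toRingHom := (fr Fq L d).toRingHom.codRestrict _ (fr_mem_separableClosure hd)
            commutes' := fun c => Subtype.ext ((fr Fq L d).commutes c) }, Subtype.ext ?_⟩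
  change fr Fq L d (th Fq L 0) = _
  rw [th, th, fr_zero, fr_apply, fr_apply]
  rfl

universe u v

theorem torsion_explicit (q r d : ℕ) (hr : 1 ≤ r) (Fq : Type u) [Field Fq] [Fintype Fq]
    (hFq : Fintype.card Fq = q) (L : Type v) [Field L] [Algebra (RatFunc Fq) L]
    [FiniteDimensional (RatFunc Fq) L] (hd : finrank (RatFunc Fq) L ≤ d) (g : ℕ → L) (φT : L → L)
    (hφT : ∀ x, φT x = algebraMap (RatFunc Fq) L RatFunc.X * x +
      ∑ j ∈ Finset.Icc 1 r, g j * x ^ q ^ j)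
    (φ : Fq[X] → L → L) (hφ : ∀ a x, φ a x = ∑ i ∈ Finset.range (a.natDegree + 1),
      algebraMap (RatFunc Fq) L (RatFunc.C (a.coeff i)) * φT^[i] x) :
    {α : L | ∃ a : Fq[X], a ≠ 0 ∧ φ a α = 0}.Finite ∧
      {α : L | ∃ a : Fq[X], a ≠ 0 ∧ φ a α = 0}.ncard ≤
        q ^ (1700 * r ^ 4 * d ^ 4) := by
  classical
  let : Algebra Fq L := ((algebraMap (RatFunc Fq) L).comp (algebraMap Fq (RatFunc Fq))).toAlgebra
  have : IsScalarTower Fq (RatFunc Fq) L := IsScalarTower.of_algebraMap_eq fun _ => rfl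
  have h1 : (fun x => φT x - th Fq L 0 * x) ∈ AP Fq L 1 (r + 1) := by
    refine mem_AP_iff.mpr ⟨g, fun x => ?_⟩
    rw [hφT, th, fr_zero, add_sub_cancel_left, ← Finset.Ico_add_one_right_eq_Icc]
    simp [fr_apply, hFq]
  have h2 : IsLin Fq (th Fq L 0) r φT := h1
  obtain ⟨Φ, hΦ⟩ := exists_linear_of_mem_AP h2.mem_AP
  have h3 : ∀ a x, φ a x = (aeval Φ a : Module.End Fq L) x := by
    intro a x
    rw [hφ, aeval_eq_sum_range, LinearMap.sum_apply]
    refine Finset.sum_congr rfl fun i _ => ?_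
    rw [LinearMap.smul_apply, Algebra.smul_def, Module.End.pow_apply, hΦ]
    rfl
  obtain ⟨ι, hι⟩ := exists_iota_sep hd
  have hD : finrank (RatFunc Fq) (separableClosure (RatFunc Fq) L) ≤ d := by
    refine le_trans ?_ hd
    rw [← finrank_mul_finrank (RatFunc Fq) (separableClosure (RatFunc Fq) L) L]
    exact Nat.le_mul_of_pos_right _ finrank_pos
  obtain ⟨Φ', hΦ', hc⟩ := (show IsLin Fq (th Fq L 0) r Φ by rw [hΦ]; exact h2).transfer ι
  rw [hι] at hΦ'
  have h4 : ∀ s : Finset L, (∀ x ∈ s, ∃ a : Fq[X], a ≠ 0 ∧ φ a x = 0) →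
      s.card ≤ q ^ (1700 * r ^ 4 * d ^ 4) := by
    intro s hs
    rw [← Finset.card_image_of_injective s (f := ι) ι.injective, ← hFq]
    refine torsion_sep hr hD hΦ' _ fun y hy => ?_
    obtain ⟨x, hx, rfl⟩ := Finset.mem_image.mp hy
    obtain ⟨a, ha, hax⟩ := hs x hx
    exact ⟨a, ha, by rw [hc, ← h3, hax, map_zero]⟩
  have h5 : {α : L | ∃ a : Fq[X], a ≠ 0 ∧ φ a α = 0}.Finite := by
    by_contra hinf
    obtain ⟨s, hs, hc⟩ := Set.Infinite.exists_subset_card_eq hinf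
      (q ^ (1700 * r ^ 4 * d ^ 4) + 1)
    have := h4 s (fun x hx => hs hx)
    omega
  refine ⟨h5, ?_⟩
  rw [Set.ncard_eq_toFinset_card _ h5]
  exact h4 _ (fun x hx => h5.mem_toFinset.mp hx)

end Pool.Agent.P.MP_43acf5_nt
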