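import Pool.Agent.P.MP_43acf5_nt.Local

/-! Local growth with the factor `q` in place of `2`. -/

namespace Pool.Agent.P.MP_43acf5_nt

open Polynomial Module WithZero

variable {Fq : Type*} [Field Fq] [Fintype Fq] {L : Type*} [Field L] [Algebra Fq L]

/-- Shrinking a ball by the factor `q` costs at most `r` dimensions. -/
def Shr (w : Valuation L ℝᵐ⁰) (Φ : Module.End Fq L) (r : ℕ) (s : ℝ) : Prop :=
  ∀ (V : Submodule Fq L) [FiniteDimensional Fq V], (∀ x ∈ V, Φ x ∈ V) → ∀ t, s ≤ t →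
    finrank Fq (ball w V t) ≤
      finrank Fq (ball w V (s + (t - s) / ((Fintype.card Fq : ℕ) : ℝ))) + r

lemma shr_of_coeff (w : Valuation L ℝᵐ⁰) {Φ : Module.End Fq L} {r : ℕ} {g : ℕ → L}
    (hg : ∀ x, Φ x = ∑ k ∈ Finset.range (r + 1), g k * fr Fq L k x) {k : ℕ} (hk1 : 1 ≤ k)
    (hk2 : k ≤ r) (hgk : g k ≠ 0) {s : ℝ}
    (hs : s ≤ log (w (g k)) + ((Fintype.card Fq : ℕ) : ℝ) ^ k * s) : Shr w Φ r s := by
  classical
  intro V _ hV t ht
  set q : ℝ := ((Fintype.card Fq : ℕ) : ℝ) with hq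
  have hq2 : (2 : ℝ) ≤ q := by rw [hq]; exact_mod_cast two_le_q Fq
  set B := ball w V t
  set B' := ball w V (s + (t - s) / q)
  set U : Submodule Fq L := V ⊓ B.comap Φ
  have h1 : finrank Fq B ≤ finrank Fq U := finrank_le_finrank_comap (ball_le w V t) Φ hV
  have : FiniteDimensional Fq U := Submodule.finiteDimensional_of_le inf_le_left
  obtain ⟨X, hXU, hdisj, -, hrk⟩ := exists_compl_in (inf_le_right : B' ⊓ U ≤ U)
  have h2 : finrank Fq (B' ⊓ U : Submodule Fq L) ≤ finrank Fq B' :=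
    Submodule.finrank_mono inf_le_left
  by_contra hcon
  have h3 : r < finrank Fq X := by omega
  have : FiniteDimensional Fq X := Submodule.finiteDimensional_of_le hXU
  obtain ⟨sX, hsX⟩ := exists_finset X
  have hcard : (Fintype.card Fq) ^ r < sX.card := by
    rw [card_finset_eq X hsX]; exact Nat.pow_lt_pow_right (two_le_q Fq) h3
  have hne : (sX.erase 0).Nonempty := by
    rw [← Finset.card_pos, Finset.card_erase_of_mem ((hsX 0).mpr X.zero_mem)]
    have : 0 < (Fintype.card Fq) ^ r := pow_pos (by have := two_le_q Fq; omega) r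
    omega
  obtain ⟨x1, hx1, hmin⟩ := Finset.exists_min_image (sX.erase 0) w hne
  have hx10 : x1 ≠ 0 := (Finset.mem_erase.mp hx1).1
  have hx1X : x1 ∈ X := (hsX x1).mp (Finset.mem_erase.mp hx1).2
  have hw1 : w x1 ≠ 0 := w.ne_zero_iff.mpr hx10
  have hgb : GB w (w x1) (exp t) (apoly Fq r g) := by
    refine GB_of_interp hw1 sX ((hsX 0).mpr X.zero_mem) ?_ ((apoly_natDegree_le r g).trans_lt hcard)
      ?_ ?_
    · intro x hx y hy
      exact (hsX _).mpr (X.sub_mem ((hsX _).mp hx) ((hsX _).mp hy))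
    · intro x hx
      rw [apoly_eval, ← hg]
      exact (hXU ((hsX _).mp hx)).2.2
    · intro x hx hx0
      exact hmin x (Finset.mem_erase.mpr ⟨hx0, hx⟩)
  have h4 := hgb ((Fintype.card Fq) ^ k)
  rw [apoly_coeff r g hk2] at h4
  have hwg : w (g k) ≠ 0 := w.ne_zero_iff.mpr hgk
  rw [← log_le_iff_le_exp (mul_ne_zero hwg (pow_ne_zero _ hw1)), log_mul hwg (pow_ne_zero _ hw1),
    log_pow, nsmul_eq_mul] at h4
  have h5 : s + (t - s) / q < log (w x1) := by
    rw [lt_log_iff_exp_lt hw1]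
    by_contra hle
    push Not at hle
    have : x1 ∈ B' ⊓ U := ⟨⟨(hXU hx1X).1, hle⟩, hXU hx1X⟩
    exact hx10 ((Submodule.disjoint_def.mp hdisj) x1 this hx1X)
  have h6 : q ≤ q ^ k := le_self_pow₀ (by linarith) (by omega)
  push_cast at h4
  rw [← hq] at h4
  have h7 : (t - s) / q < log (w x1) - s := by linarith
  have h8 : 0 ≤ (t - s) / q := div_nonneg (by linarith) (by linarith)
  rw [div_lt_iff₀ (by linarith)] at h7
  have h9 : (log (w x1) - s) * q ≤ (log (w x1) - s) * q ^ k :=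
    mul_le_mul_of_nonneg_left h6 (by linarith)
  nlinarith

lemma exists_locq (w : Valuation L ℝᵐ⁰) {θ : L} {Φ : Module.End Fq L} {r : ℕ}
    (hΦ : IsLin Fq θ r Φ) (hne : ∃ x, Φ x ≠ θ * x) {ν : ℝ} (hν : 0 ≤ ν) :
    ∃ s, Loc w θ Φ r ν s ∧ Shr w Φ r s := by
  classical
  obtain ⟨g, hg0, hg⟩ := hΦ.exists_coeff
  have hsub : ∀ x, Φ x - θ * x = ∑ k ∈ Finset.Ico 1 (r + 1), g k * fr Fq L k x := by
    intro x
    rw [hg, Finset.range_eq_Ico, Finset.sum_eq_sum_Ico_succ_bot (by omega)]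
    simp [hg0]
  set K := (Finset.Ico 1 (r + 1)).filter fun k => g k ≠ 0
  have hK : K.Nonempty := by
    by_contra h
    obtain ⟨x, hx⟩ := hne
    apply hx
    rw [← sub_eq_zero, hsub]
    refine Finset.sum_eq_zero fun k hk => ?_
    have : g k = 0 := by
      by_contra h'
      exact h ⟨k, Finset.mem_filter.mpr ⟨hk, h'⟩⟩
    simp [this]
  set q : ℝ := ((Fintype.card Fq : ℕ) : ℝ)
  obtain ⟨k0, hk0, hmin⟩ := Finset.exists_min_image K
    (fun k => (ν - log (w (g k))) / (q ^ k - 1)) hK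
  have hk0' := Finset.mem_Ico.mp (Finset.mem_filter.mp hk0).1
  set s := (ν - log (w (g k0))) / (q ^ k0 - 1) with hs
  have hs' : s ≤ log (w (g k0)) + q ^ k0 * s := by
    have h2 := two_le_q_pow (Fq := Fq) hk0'.1
    have h3 : s * (q ^ k0 - 1) = ν - log (w (g k0)) := by
      rw [hs]; exact div_mul_cancel₀ _ (by linarith)
    nlinarith
  refine ⟨s, ⟨?_, ?_⟩, ?_⟩
  · intro t ht x hx
    rw [hsub]
    refine w.map_sum_le fun k hk => ?_
    by_cases hgk : g k = 0
    · simp [hgk]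
    have hk' := Finset.mem_Ico.mp hk
    have h2 := two_le_q_pow (Fq := Fq) hk'.1
    have h3 := hmin k (Finset.mem_filter.mpr ⟨hk, hgk⟩)
    rw [le_div_iff₀ (by linarith)] at h3
    have hwg : w (g k) ≠ 0 := w.ne_zero_iff.mpr hgk
    rw [map_mul, fr_apply, map_pow, ← exp_log hwg]
    refine (mul_le_mul_right (pow_le_pow_left' hx _) _).trans ?_
    rw [← exp_nsmul, ← exp_add, exp_le_exp, nsmul_eq_mul]
    push_cast
    nlinarith
  · intro V _ hV t ht
    exact shrink_of_coeff w hg hk0'.1 (by omega) (Finset.mem_filter.mp hk0).2 hs' V hV t ht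
  · exact shr_of_coeff w hg hk0'.1 (by omega) (Finset.mem_filter.mp hk0).2 hs'

variable {w : Valuation L ℝᵐ⁰} {θ : L} {Φ : Module.End Fq L} {r : ℕ} {ν s : ℝ}

lemma Shr.iter (h : Shr w Φ r s) (V : Submodule Fq L) [FiniteDimensional Fq V]
    (hV : ∀ x ∈ V, Φ x ∈ V) {t : ℝ} (ht : s ≤ t) (j : ℕ) :
    finrank Fq (ball w V t) ≤
      finrank Fq (ball w V (s + (t - s) / ((Fintype.card Fq : ℕ) : ℝ) ^ j)) + r * j := by
  set q : ℝ := ((Fintype.card Fq : ℕ) : ℝ) with hq
  have hq2 : (2 : ℝ) ≤ q := by rw [hq]; exact_mod_cast two_le_q Fq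
  induction j with
  | zero =>
    have : s + (t - s) / q ^ 0 = t := by ring
    rw [this]; omega
  | succ j ih =>
    have h1 := h V hV (s + (t - s) / q ^ j)
      (by have : 0 ≤ (t - s) / q ^ j := by apply div_nonneg <;> [linarith; positivity]
          linarith)
    have : s + (s + (t - s) / q ^ j - s) / q = s + (t - s) / q ^ (j + 1) := by
      rw [pow_succ]; field_simp; ring
    rw [← hq, this] at h1
    rw [mul_add, mul_one]
    omega

/-- Growth of the spread of the absolute values by powers of `q`. -/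
lemma Loc.largeq (h : Loc w θ Φ r ν s) (h' : Shr w Φ r s) (V : Submodule Fq L)
    [FiniteDimensional Fq V]
    (hV : ∀ x ∈ V, Φ x ∈ V) (hlow : ∀ x ∈ V, x ≠ 0 → s ≤ log (w x)) {s0 : ℝ}
    (hs0 : ∀ x ∈ V, w x ≤ exp s0) (hss : s ≤ s0) {γ : ℝ}
    (hgap : ∀ x ∈ V, ∀ y ∈ V, x ≠ 0 → y ≠ 0 → log (w x) < log (w y) →
      γ ≤ log (w y) - log (w x)) {j : ℕ}
    (h1 : finrank Fq (ball w V s) + r * j < finrank Fq V) (h2 : r * j + r < finrank Fq V) :
    ((Fintype.card Fq : ℕ) : ℝ) ^ j * γ ≤ s0 - s := by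
  have h3 := h'.iter V hV hss j
  set q : ℝ := ((Fintype.card Fq : ℕ) : ℝ) with hq
  have hq2 : (2 : ℝ) ≤ q := by rw [hq]; exact_mod_cast two_le_q Fq
  rw [ball_eq_self hs0] at h3
  set B := ball w V (s + (s0 - s) / q ^ j)
  obtain ⟨y, hy, x, hx, hxy⟩ := exists_top w B (by omega)
  have hx0 : x ≠ 0 := by
    rintro rfl
    rw [map_zero] at hxy
    exact exp_ne_zero hxy.symm
  have hyt : y ≤ s + (s0 - s) / q ^ j := by
    have := hx.2
    rwa [hxy, exp_le_exp] at this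
  have hBy : B ≤ ball w V y := fun z hz => ⟨hz.1, hy z hz⟩
  have hsy : s < y := by
    by_contra hle
    push Not at hle
    have : finrank Fq B ≤ finrank Fq (ball w V s) :=
      Submodule.finrank_mono (hBy.trans (ball_mono w V hle))
    omega
  have h4 := h.shrink V hV y hsy.le
  have h5 : finrank Fq B ≤ finrank Fq (ball w V y) := Submodule.finrank_mono hBy
  have hne : ball w V (s + (y - s) / 2) ≠ ⊥ := by
    intro h0
    rw [h0, finrank_bot] at h4
    omega
  obtain ⟨z, hz, hz0⟩ := Submodule.exists_mem_ne_zero_of_ne_bot hne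
  have hwz : w z ≠ 0 := w.ne_zero_iff.mpr hz0
  have h6 : log (w z) ≤ s + (y - s) / 2 := (log_le_iff_le_exp hwz).mpr hz.2
  have h7 := hgap z hz.1 x hx.1 hz0 hx0 (by rw [hxy, log_exp]; linarith)
  rw [hxy, log_exp] at h7
  have h8 := hlow z hz.1 hz0
  have h9 : γ ≤ (s0 - s) / q ^ j := by linarith
  rw [le_div_iff₀ (by positivity)] at h9
  linarith

end Pool.Agent.P.MP_43acf5_nt
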