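import Pool.Agent.P.MP_43acf5_nt.Ineq
import Pool.Agent.P.MP_43acf5_nt.Q.Loc
import Pool.Agent.P.MP_43acf5_nt.Q.Fam

/-! The height inequality for a finite submodule with an arbitrary annihilator. -/

namespace Pool.Agent.P.MP_43acf5_nt

open Module WithZero Polynomial

variable {Fq : Type*} [Field Fq] [Fintype Fq] {L : Type*} [Field L] [Algebra (RatFunc Fq) L]
  [Algebra Fq L] [IsScalarTower Fq (RatFunc Fq) L] {ι : Type*} [Fintype ι] {D : ℕ}
  {wv : Pl Fq → ι → Valuation L ℝᵐ⁰}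

omit [IsScalarTower Fq (RatFunc Fq) L] in
lemma Fam.le_one_iff (h : Fam D wv) (v : Pl Fq) (i : ι) (y : RatFunc Fq) :
    wv v i (algebraMap _ L y) ≤ 1 ↔ pval v y ≤ 1 := by
  by_cases hy : y = 0
  · simp [hy]
  have hv : pval v y ≠ 0 := (pval v).ne_zero_iff.mpr hy
  have hd : (0 : ℝ) < pdeg v := by exact_mod_cast pdeg_pos v
  rw [h.base v i y hy, ← exp_zero, exp_le_exp, ← exp_zero, ← log_le_iff_le_exp hv]
  constructor
  · intro h
    by_contra h'
    have : (0 : ℝ) < (log (pval v y) : ℤ) := by exact_mod_cast not_le.mp h'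
    exact absurd h (not_le.mpr (mul_pos hd this))
  · intro h
    exact mul_nonpos_of_nonneg_of_nonpos hd.le (by exact_mod_cast h)

lemma Fam.th_some (h : Fam D wv) (d : ℕ) (P : MI Fq) (σ : ι) :
    wv (some P) σ (th Fq L d) ≤ 1 := by
  rw [th_eq, h.le_one_iff]
  exact pval_some_le_one P _

lemma Fam.th_none (h : Fam D wv) (d : ℕ) (σ : ι) :
    wv none σ (th Fq L d) = exp (((Fintype.card Fq) ^ d : ℕ) : ℝ) := by
  rw [th_eq, h.base _ _ _ (RatFunc.algebraMap_ne_zero (pow_ne_zero _ X_ne_zero)),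
    pval_none (pow_ne_zero _ X_ne_zero)]
  simp [pdeg]

/-- The local data of a finite submodule at all places. -/
structure DatF (wv : Pl Fq → ι → Valuation L ℝᵐ⁰) (d r : ℕ) (Φ : Module.End Fq L)
    (V : Submodule Fq L) (sst s0 : Pl Fq → ι → ℝ) : Prop where
  loc : ∀ v σ, Loc (wv v σ) (th Fq L d) Φ r (nu (((Fintype.card Fq) ^ d : ℕ) : ℝ) v) (sst v σ)
  shr : ∀ v σ, Shr (wv v σ) Φ r (sst v σ)
  top_le : ∀ v σ, ∀ x ∈ V, wv v σ x ≤ exp (s0 v σ)
  top_ex : ∀ v σ, ∃ x ∈ V, wv v σ x = exp (s0 v σ)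

omit [Fintype ι] in
lemma exists_datF (wv : Pl Fq → ι → Valuation L ℝᵐ⁰) {d r : ℕ} {Φ : Module.End Fq L}
    (hΦ : IsLin Fq (th Fq L d) r Φ) (V : Submodule Fq L) [FiniteDimensional Fq V]
    (hV : 0 < finrank Fq V) {a : Fq[X]} (ha : a ≠ 0)
    (hk : ∀ x ∈ V, (aeval Φ a : Module.End Fq L) x = 0) :
    ∃ sst s0, DatF wv d r Φ V sst s0 := by
  have hne : ∃ x, Φ x ≠ th Fq L d * x := by
    by_contra hc
    push Not at hc
    have hb : V ≠ ⊥ := by
      rintro rfl
      simp at hV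
    obtain ⟨x, hx, hx0⟩ := Submodule.exists_mem_ne_zero_of_ne_bot hb
    have := hk x hx
    rw [aeval_apply_of_eq_mul hc] at this
    exact mul_ne_zero (aeval_th_ne_zero d ha) hx0 this
  choose sst h1 h1' using fun (v : Pl Fq) (σ : ι) =>
    exists_locq (wv v σ) hΦ hne (ν := nu (((Fintype.card Fq) ^ d : ℕ) : ℝ) v)
      (by cases v <;> simp [nu])
  choose s0 h2 h3 using fun (v : Pl Fq) (σ : ι) => exists_top (wv v σ) V hV
  exact ⟨sst, s0, h1, h1', h2, h3⟩

/-- The local error terms attached to an annihilating polynomial. -/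
noncomputable def errv (d n : ℕ) (a : Fq[X]) : Pl Fq → ℝ
  | none => (((Fintype.card Fq) ^ d : ℕ) : ℝ) * n
  | some P => -((pdeg (some P) : ℝ) *
      (log (pval (some P) (algebraMap Fq[X] (RatFunc Fq) (a ^ (Fintype.card Fq) ^ d))) : ℤ))

lemma Fam.log_aeval (h : Fam D wv) (d n : ℕ) {a : Fq[X]} (ha : a ≠ 0) (P : MI Fq) (σ : ι) :
    log (wv (some P) σ (aeval (th Fq L d) a)) = -errv d n a (some P) := by
  rw [aeval_th, h.base _ _ _ (RatFunc.algebraMap_ne_zero (pow_ne_zero _ ha)), log_exp, errv,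
    neg_neg]

lemma errv_eq_zero (d n : ℕ) {a : Fq[X]} {P : MI Fq} (hP : ¬ P.1 ∣ a) :
    errv d n a (some P) = 0 := by
  rw [errv, (pval_some_eq_one_iff P _).mpr fun hd => hP (P.2.2.prime.dvd_of_dvd_pow hd)]
  simp

lemma errv_nonneg (d n : ℕ) {a : Fq[X]} (ha : a ≠ 0) (v : Pl Fq) : 0 ≤ errv d n a v := by
  cases v with
  | none => simp only [errv]; positivity
  | some P =>
    have h0 : pval (some P) (algebraMap Fq[X] (RatFunc Fq) (a ^ (Fintype.card Fq) ^ d)) ≠ 0 :=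
      (pval (some P)).ne_zero_iff.mpr (RatFunc.algebraMap_ne_zero (pow_ne_zero _ ha))
    have h1 := (log_le_iff_le_exp h0).mpr ((pval_some_le_one P _).trans exp_zero.ge)
    rw [errv, neg_nonneg]
    exact mul_nonpos_of_nonneg_of_nonpos (Nat.cast_nonneg _) (by exact_mod_cast h1)

lemma sum_errv (d : ℕ) {n : ℕ} {a : Fq[X]} (ha : a ≠ 0) (hn : a.natDegree ≤ n)
    (S : Finset (Pl Fq)) :
    ∑ v ∈ S, errv d n a v ≤ 2 * ((((Fintype.card Fq) ^ d : ℕ) : ℝ) * n) := by
  classical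
  have hb : a ^ (Fintype.card Fq) ^ d ≠ 0 := pow_ne_zero _ ha
  obtain ⟨S0, hS0⟩ := product_formula_poly hb
  set S' := insert none (S ∪ S0)
  have h1 := congrArg (Int.cast : ℤ → ℝ)
    (hS0 S' (Finset.subset_union_right.trans (Finset.subset_insert _ _)))
  have hm : none ∈ S' := Finset.mem_insert_self _ _
  rw [Int.cast_sum, ← Finset.add_sum_erase _ _ hm, pval_none hb] at h1
  refine (Finset.sum_le_sum_of_subset_of_nonneg
    (Finset.subset_union_left.trans (Finset.subset_insert none (S ∪ S0)))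
    fun v _ _ => errv_nonneg d n ha v).trans ?_
  rw [← Finset.add_sum_erase _ _ hm]
  have h2 : ∑ v ∈ S'.erase none, errv d n a v = -∑ v ∈ S'.erase none,
      (((pdeg v : ℤ) * log (pval v (algebraMap Fq[X] (RatFunc Fq) (a ^ (Fintype.card Fq) ^ d))) :
        ℤ) : ℝ) := by
    rw [← Finset.sum_neg_distrib]
    refine Finset.sum_congr rfl fun v hv => ?_
    cases v with
    | none => simp at hv
    | some P =>
      simp only [errv]
      push_cast
      rfl
  rw [h2]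
  simp only [pdeg, log_exp, natDegree_pow, Nat.cast_one, one_mul, Int.cast_natCast,
    Int.cast_zero] at h1
  have h3 : (((Fintype.card Fq) ^ d * a.natDegree : ℕ) : ℝ) ≤
      (((Fintype.card Fq) ^ d : ℕ) : ℝ) * n := by
    exact_mod_cast Nat.mul_le_mul_left _ hn
  simp only [errv, pdeg]
  linarith

variable {d r : ℕ} {Φ : Module.End Fq L} {V : Submodule Fq L}
  {sst s0 : Pl Fq → ι → ℝ}

lemma DatF.lower_gen [FiniteDimensional Fq V] (h : Fam D wv) (hd : DatF wv d r Φ V sst s0)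
    (hV : ∀ x ∈ V, Φ x ∈ V) {a : Fq[X]} {n : ℕ} (ha : a ≠ 0)
    (hk : ∀ x ∈ V, (aeval Φ a : Module.End Fq L) x = 0) (hn1 : finrank Fq V ≤ n) (v : Pl Fq)
    (σ : ι) {x : L} (hx : x ∈ V) (hx0 : x ≠ 0) :
    sst v σ - errv d n a v ≤ log (wv v σ x) := by
  have hN : (0 : ℝ) < ((Fintype.card Fq) ^ d : ℕ) := by
    have := two_le_q Fq
    exact_mod_cast pow_pos (by omega) d
  cases v with
  | none =>
    have := (hd.loc none σ).lower_inf (h.th_none d σ) hN V hV hx hx0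
    have h2 : (finrank Fq V : ℝ) ≤ n := by exact_mod_cast hn1
    simp only [nu] at this
    simp only [errv]
    nlinarith
  | some P =>
    have := (hd.loc (some P) σ).lower_fin (h.th_some d P σ) hx0 (aeval_th_ne_zero d ha)
      (by rw [h.log_aeval d n ha, neg_nonpos]; exact errv_nonneg d n ha _) (hk x hx)
    rw [h.log_aeval d n ha] at this
    linarith

lemma DatF.lower_pt (h : Fam D wv) (hd : DatF wv d r Φ V sst s0) {a : Fq[X]} {P : MI Fq}
    (hP : ¬ P.1 ∣ a) (σ : ι) {x : L} (hx0 : x ≠ 0)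
    (hx : (aeval Φ a : Module.End Fq L) x = 0) :
    sst (some P) σ ≤ log (wv (some P) σ x) := by
  have ha : a ≠ 0 := by
    rintro rfl
    exact hP (dvd_zero _)
  have := (hd.loc (some P) σ).lower_fin (h.th_some d P σ) hx0 (aeval_th_ne_zero d ha)
    (by rw [h.log_aeval d 0 ha, errv_eq_zero d 0 hP, neg_zero]) hx
  rwa [h.log_aeval d 0 ha, errv_eq_zero d 0 hP, neg_zero, add_zero] at this

open Classical in
/-- The height inequality for a finite submodule killed by an arbitrary polynomial. -/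
lemma DatF.ineq_gen [FiniteDimensional Fq V] (h : Fam D wv) (hd : DatF wv d r Φ V sst s0)
    (hΦ : IsLin Fq (th Fq L d) r Φ) (hr : 0 < r) (hV : ∀ x ∈ V, Φ x ∈ V) {a : Fq[X]} {n : ℕ}
    (ha : a ≠ 0) (hk : ∀ x ∈ V, (aeval Φ a : Module.End Fq L) x = 0) (hn1 : finrank Fq V ≤ n)
    (hn2 : a.natDegree ≤ n) {m s : ℕ} (hm0 : 16 * r * D ^ 2 ≤ m)
    (hms : (Fintype.card Fq) ^ d * m < (Fintype.card Fq) ^ s) (hm : m * (r * m) < finrank Fq V) :
    ∃ S0 : Finset (Pl Fq), ∀ S, S0 ⊆ S →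
      ∑ v ∈ S, ∑ σ, max (s0 v σ - sst v σ) 0 ≤
        16 * D * (((Fintype.card Fq) ^ d : ℕ) * n) +
          ((Fintype.card Fq) ^ s : ℕ) *
            ∑ v ∈ S.filter (fun v => ∃ σ, 0 < max (s0 v σ - sst v σ) 0), (pdeg v : ℝ) := by
  obtain ⟨M, hM, S1, hS1⟩ := h.core s V m (le_finrank_span hΦ hV hms hm)
  obtain ⟨sV', hsV'⟩ := exists_finset V
  set sV := sV'.erase 0
  have hsV : ∀ x, x ∈ sV ↔ x ∈ V ∧ x ≠ 0 := by
    intro x; simp [sV, hsV', and_comm]
  choose! Sx hSx using h.product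
  refine ⟨S1 ∪ sV.biUnion Sx, fun S hS => ?_⟩
  set c := Fintype.card ι with hcc
  set N : ℝ := (((Fintype.card Fq) ^ d : ℕ) : ℝ) with hN
  set Q : ℝ := (((Fintype.card Fq) ^ s : ℕ) : ℝ) with hQ
  set A : Pl Fq → ι → ℝ := fun v σ => max (s0 v σ - sst v σ) 0 with hA
  set err : Pl Fq → ℝ := errv d n a with herr
  have hA0 : ∀ v σ, 0 ≤ A v σ := fun v σ => le_max_right _ _
  have herr0 : ∀ v, 0 ≤ err v := errv_nonneg d n ha
  have hpack := fun v σ => (hd.loc v σ).package V hV hsV (hd.top_le v σ) (hd.top_ex v σ)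
    (herr0 v) (fun x hx hx0 => hd.lower_gen h hV ha hk hn1 v σ hx hx0)
  have h1 := hS1 S (Finset.subset_union_left.trans hS) (fun v σ => s0 v σ - 3 / 4 * A v σ) A
    (fun v σ => if 0 < A v σ then 2 * r else 0) hA0 (fun v σ x hx =>
      (hd.top_le v σ x hx).trans (exp_le_exp.mpr (by linarith [hA0 v σ])))
    (fun v σ => (hpack v σ).1)
  have hcD : (c : ℝ) ≤ D := by exact_mod_cast h.card_le
  have hD0 : (1 : ℝ) ≤ c := by exact_mod_cast h.card_pos
  have hc : (0 : ℝ) < sV.card := by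
    obtain ⟨x, hx, hx'⟩ := hd.top_ex none (Fintype.card_pos_iff.mp h.card_pos).some
    have : x ≠ 0 := by
      rintro rfl
      rw [map_zero] at hx'
      exact exp_ne_zero hx'.symm
    exact_mod_cast Finset.card_pos.mpr ⟨x, (hsV x).mpr ⟨hx, this⟩⟩
  set T := ∑ v ∈ S, ∑ σ, (s0 v σ - 3 / 4 * A v σ) with hT
  set SA := ∑ v ∈ S, ∑ σ, A v σ with hSA
  set dS := ∑ v ∈ S.filter (fun v => ∃ σ, 0 < A v σ), (pdeg v : ℝ) with hdS
  have hE : ∑ v ∈ S, err v ≤ 2 * (N * n) := sum_errv d ha hn2 S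
  have h2 : T ≤ -(SA / 4) + c * (2 * (N * n)) := by
    have h3 : ∑ v ∈ S, ∑ σ, (sV.card * (A v σ / 4 - err v)) ≤
        ∑ v ∈ S, ∑ σ, ∑ x ∈ sV, (log (wv v σ x) - (s0 v σ - 3 / 4 * A v σ)) :=
      Finset.sum_le_sum fun v _ => Finset.sum_le_sum fun σ _ => (hpack v σ).2
    have h4 : ∑ v ∈ S, ∑ σ, ∑ x ∈ sV, log (wv v σ x) = 0 := by
      rw [Finset.sum_congr rfl fun v _ => Finset.sum_comm, Finset.sum_comm]
      refine Finset.sum_eq_zero fun x hx => hSx x ((hsV x).mp hx).2 S ?_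
      exact (Finset.subset_biUnion_of_mem Sx hx).trans (Finset.subset_union_right.trans hS)
    have h5 : ∑ v ∈ S, ∑ σ, ∑ x ∈ sV, (log (wv v σ x) - (s0 v σ - 3 / 4 * A v σ)) =
        -(sV.card * T) := by
      simp only [Finset.sum_sub_distrib (f := fun x => log (wv _ _ x)), Finset.sum_const,
        nsmul_eq_mul]
      simp only [Finset.sum_sub_distrib (f := fun σ => ∑ x ∈ sV, log (wv _ σ x))]
      rw [Finset.sum_sub_distrib, h4, hT, Finset.mul_sum, zero_sub]
      simp only [Finset.mul_sum]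
    have h6 : ∑ v ∈ S, ∑ σ, (sV.card * (A v σ / 4 - err v)) =
        sV.card * (SA / 4 - c * ∑ v ∈ S, err v) := by
      rw [hSA, Finset.sum_div, Finset.mul_sum, ← Finset.sum_sub_distrib, Finset.mul_sum]
      refine Finset.sum_congr rfl fun v _ => ?_
      rw [← Finset.mul_sum, Finset.sum_sub_distrib, Finset.sum_const, Finset.card_univ,
        nsmul_eq_mul, Finset.sum_div]
    rw [h5, h6, ← mul_neg, mul_le_mul_iff_right₀ hc] at h3
    have : (c : ℝ) * ∑ v ∈ S, err v ≤ c * (2 * (N * n)) := by gcongr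
    linarith
  have h7 : ∑ v ∈ S, ((∑ σ, (if 0 < A v σ then 2 * r else 0) : ℕ) : ℝ) *
      (∑ σ, A v σ + Q * pdeg v) ≤ 2 * r * c * (SA + Q * dS) := by
    rw [hSA, hdS, Finset.sum_filter, Finset.mul_sum, ← Finset.sum_add_distrib, Finset.mul_sum]
    refine Finset.sum_le_sum fun v _ => ?_
    have hAv : 0 ≤ ∑ σ, A v σ := Finset.sum_nonneg fun σ _ => hA0 v σ
    split_ifs with hv
    · have : ((∑ σ, (if 0 < A v σ then 2 * r else 0) : ℕ) : ℝ) ≤ 2 * r * c := by
        have := Finset.sum_le_card_nsmul Finset.univ (fun σ => if 0 < A v σ then 2 * r else 0)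
          (2 * r) (fun σ _ => by split_ifs <;> omega)
        rw [smul_eq_mul, Finset.card_univ, mul_comm (Fintype.card _)] at this
        exact_mod_cast this
      gcongr
    · push Not at hv
      rw [Finset.sum_eq_zero fun σ _ => if_neg (not_lt.mpr (hv σ))]
      simp only [Nat.cast_zero, zero_mul, mul_zero, add_zero]
      positivity
  have hM' : 16 * r * (c : ℝ) ^ 2 ≤ M := by
    have := (Nat.mul_le_mul_left (16 * r) (Nat.pow_le_pow_left h.card_le 2)).trans (hm0.trans hM)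
    exact_mod_cast this
  have hr' : (1 : ℝ) ≤ r := by exact_mod_cast hr
  have hM0 : (0 : ℝ) < M := lt_of_lt_of_le (by positivity) hM'
  have hSA0 : 0 ≤ SA := Finset.sum_nonneg fun v _ => Finset.sum_nonneg fun σ _ => hA0 v σ
  have hdS0 : 0 ≤ dS := Finset.sum_nonneg fun v _ => Nat.cast_nonneg _
  have hQ0 : 0 ≤ Q := Nat.cast_nonneg _
  have h8 : (c : ℝ) * (2 * r * c * (SA + Q * dS)) ≤ M * ((SA + Q * dS) / 8) := by
    have : 0 ≤ SA + Q * dS := by positivity
    nlinarith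
  have h9 : 0 ≤ M * (-(SA / 4) + c * (2 * (N * n)) + (SA + Q * dS) / 8) := by
    have := mul_le_mul_of_nonneg_left h2 hM0.le
    have := mul_le_mul_of_nonneg_left h7 (show (0 : ℝ) ≤ c by linarith)
    linarith
  have := (mul_nonneg_iff_of_pos_left hM0).mp h9
  have : (c : ℝ) * (N * n) ≤ D * (N * n) := by gcongr
  linarith

end Pool.Agent.P.MP_43acf5_nt
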