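import Pool.Agent.P.MP_43acf5_nt.Count
import Pool.Agent.P.MP_43acf5_nt.Q.Ineq

/-! Behaviour of the local spread under isogenies, for an arbitrary annihilator. -/

namespace Pool.Agent.P.MP_43acf5_nt

open Module WithZero Polynomial

variable {Fq : Type*} [Field Fq] [Fintype Fq] {L : Type*} [Field L] [Algebra (RatFunc Fq) L]
  [Algebra Fq L] [IsScalarTower Fq (RatFunc Fq) L] {ι : Type*} [Fintype ι] {D : ℕ}
  {wv : Pl Fq → ι → Valuation L ℝᵐ⁰}
  {d r : ℕ} {Φ Ψ : Module.End Fq L} {V W : Submodule Fq L}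
  {sst s0 sst' s0' : Pl Fq → ι → ℝ}

lemma DatF.const_gen (h : Fam D wv) (hd : DatF wv d r Φ V sst s0) {a : Fq[X]}
    (hk : ∀ x ∈ V, (aeval Φ a : Module.End Fq L) x = 0) {P : MI Fq} (hP : ¬ P.1 ∣ a)
    (σ : ι) (hA : ¬ 0 < max (s0 (some P) σ - sst (some P) σ) 0) {x : L}
    (hx : x ∈ V) (hx0 : x ≠ 0) : wv (some P) σ x = exp (sst (some P) σ) := by
  have h1 := hd.lower_pt h hP σ hx0 (hk x hx)
  have hw : wv (some P) σ x ≠ 0 := (wv (some P) σ).ne_zero_iff.mpr hx0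
  have h2 := (log_le_iff_le_exp hw).mpr (hd.top_le (some P) σ x hx)
  have h3 : s0 (some P) σ - sst (some P) σ ≤ 0 := by
    by_contra hc
    exact hA (lt_max_of_lt_left (not_le.mp hc))
  rw [← exp_log hw]
  congr 1
  linarith

lemma DatF.const_isog_gen (h : Fam D wv) (hd : DatF wv d r Φ V sst s0) {f : Module.End Fq L}
    [FiniteDimensional Fq (V.map f)] (hd' : DatF wv d r Ψ (V.map f) sst' s0')
    (hV' : ∀ x ∈ V.map f, Ψ x ∈ V.map f) (hr : r < finrank Fq (V.map f)) (hle : W ≤ V)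
    (hker : LinearMap.ker f = W) {sW : Finset L} (hsW : ∀ y, y ∈ sW ↔ y ∈ W)
    (hf : ∀ x, f x = ∏ y ∈ sW, (x - y)) {a : Fq[X]}
    (hk : ∀ x ∈ V, (aeval Φ a : Module.End Fq L) x = 0) {P : MI Fq} (hP : ¬ P.1 ∣ a)
    (σ : ι) (hA : ¬ 0 < max (s0 (some P) σ - sst (some P) σ) 0) :
    ¬ 0 < max (s0' (some P) σ - sst' (some P) σ) 0 := by
  have h1 : ∀ z ∈ V.map f, z ≠ 0 → wv (some P) σ z = exp (sW.card * sst (some P) σ) := by
    rintro _ ⟨x, hx, rfl⟩ hz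
    have hxW : x ∉ W := fun hxW => hz (by rwa [← hker] at hxW)
    rw [hf, map_prod, ← nsmul_eq_mul, exp_nsmul, ← Finset.prod_const]
    refine Finset.prod_congr rfl fun y hy => ?_
    have hy' := (hsW y).mp hy
    exact hd.const_gen h hk hP σ hA (V.sub_mem hx (hle hy'))
      (sub_ne_zero.mpr fun e => hxW (e ▸ hy'))
  have h2 := (hd'.loc (some P) σ).const_le _ hV' hr h1
  obtain ⟨z, hz, hz'⟩ := hd'.top_ex (some P) σ
  have hz0 : z ≠ 0 := by
    rintro rfl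
    rw [map_zero] at hz'
    exact exp_ne_zero hz'.symm
  rw [h1 z hz hz0, exp_inj] at hz'
  simp only [lt_max_iff, lt_self_iff_false, or_false, not_lt]
  linarith

omit [Algebra (RatFunc Fq) L] [IsScalarTower Fq (RatFunc Fq) L] in
/-- The spread of the values of the subspace polynomial of `W`. -/
lemma spread_prod (w : Valuation L ℝᵐ⁰) {s γ : ℝ}
    (hgap : ∀ x ∈ V, ∀ y ∈ V, x ≠ 0 → y ≠ 0 → log (w x) < log (w y) →
      γ ≤ log (w y) - log (w x)) (hle : W ≤ V) {sW sB : Finset L} (hsW : ∀ y, y ∈ sW ↔ y ∈ W)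
    (hsB : ∀ y, y ∈ sB ↔ y ∈ W ⊓ ball w V s) (h1 : W ⊔ ball w V s ≠ V)
    {y : L} (hy : y ∈ ball w V s) (hyW : y ∉ W) :
    ∃ x ∈ V, x ∉ W ∧
      sB.card * γ + log (w (∏ z ∈ sW, (y - z))) ≤ log (w (∏ z ∈ sW, (x - z))) := by
  classical
  set B := ball w V s
  obtain ⟨x1, hx1, hx1'⟩ := SetLike.not_le_iff_exists.mp
    (fun hh : V ≤ W ⊔ B => h1 (le_antisymm (sup_le hle (ball_le _ _ _)) hh))
  obtain ⟨z0, hz0, hmin⟩ := Finset.exists_min_image sW (fun z => w (x1 - z))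
    ⟨0, (hsW 0).mpr W.zero_mem⟩
  have hz0W := (hsW z0).mp hz0
  set x := x1 - z0 with hx
  have hxV : x ∈ V := V.sub_mem hx1 (hle hz0W)
  have hxz : ∀ z ∈ W, x - z ∉ B := by
    intro z hz hh
    apply hx1'
    have : x1 = (z0 + z) + (x - z) := by rw [hx]; ring
    rw [this]
    exact Submodule.add_mem_sup (W.add_mem hz0W hz) hh
  have hxW : x ∉ W := fun hh => hxz x hh (by rw [sub_self]; exact B.zero_mem)
  have hxz0 : ∀ z ∈ W, x - z ≠ 0 := fun z hz e => hxW (sub_eq_zero.mp e ▸ hz)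
  have hyz0 : ∀ z ∈ W, y - z ≠ 0 := fun z hz e => hyW (sub_eq_zero.mp e ▸ hz)
  have hmin' : ∀ z ∈ W, w z ≤ w (x - z) := by
    intro z hz
    have a1 : w x ≤ w (x - z) := by
      have := hmin (z0 + z) ((hsW _).mpr (W.add_mem hz0W hz))
      rwa [← sub_sub] at this
    have a2 : z = x - (x - z) := by ring
    conv_lhs => rw [a2]
    exact w.map_sub_le a1 le_rfl
  refine ⟨x, hxV, hxW, ?_⟩
  have hlog : ∀ u : L, (∀ z ∈ W, u - z ≠ 0) →
      log (w (∏ z ∈ sW, (u - z))) = ∑ z ∈ sW, log (w (u - z)) := by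
    intro u hu
    rw [map_prod]
    have : ∏ z ∈ sW, w (u - z) = exp (∑ z ∈ sW, log (w (u - z))) := by
      rw [exp_sum]
      exact Finset.prod_congr rfl fun z hz =>
        (exp_log (w.ne_zero_iff.mpr (hu z ((hsW z).mp hz)))).symm
    rw [this, log_exp]
  rw [hlog x hxz0, hlog y hyz0]
  have hsub : sB ⊆ sW := fun z hz => (hsW z).mpr ((hsB z).mp hz).1
  have e1 : (sB.card : ℝ) * γ = ∑ z ∈ sW, if z ∈ sB then γ else 0 := by
    rw [Finset.sum_ite_mem, Finset.inter_eq_right.mpr hsub, Finset.sum_const, nsmul_eq_mul]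
  rw [e1, ← Finset.sum_add_distrib]
  refine Finset.sum_le_sum fun z hz => ?_
  have hzW := (hsW z).mp hz
  have hwx : w (x - z) ≠ 0 := w.ne_zero_iff.mpr (hxz0 z hzW)
  have hwy : w (y - z) ≠ 0 := w.ne_zero_iff.mpr (hyz0 z hzW)
  split_ifs with hzB
  · have b1 : y - z ∈ B := B.sub_mem hy ((hsB z).mp hzB).2
    have b2 : log (w (y - z)) ≤ s := (log_le_iff_le_exp hwy).mpr b1.2
    have b3 : s < log (w (x - z)) := by
      rw [lt_log_iff_exp_lt hwx]
      by_contra hc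
      exact hxz z hzW ⟨V.sub_mem hxV (hle hzW), not_lt.mp hc⟩
    have := hgap _ b1.1 _ (V.sub_mem hxV (hle hzW)) (hyz0 z hzW) (hxz0 z hzW) (by linarith)
    linarith
  · have b1 : exp s < w z := by
      by_contra hc
      exact hzB ((hsB z).mpr ⟨hzW, hle hzW, not_lt.mp hc⟩)
    have b2 : w (y - z) = w z := w.map_sub_eq_of_lt_right (hy.2.trans_lt b1)
    rw [zero_add, log_le_log hwy hwx, b2]
    exact hmin' z hzW

lemma DatF.large_isog_gen (h : Fam D wv) {f : Module.End Fq L}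
    [FiniteDimensional Fq W]
    (hd' : DatF wv d r Ψ (V.map f) sst' s0') (hle : W ≤ V) (hker : LinearMap.ker f = W)
    {sW : Finset L} (hsW : ∀ y, y ∈ sW ↔ y ∈ W) (hf : ∀ x, f x = ∏ y ∈ sW, (x - y)) {a : Fq[X]}
    {P : MI Fq} (hP : ¬ P.1 ∣ a)
    (σ : ι) {s : ℝ} (h1 : W ⊔ ball (wv (some P) σ) V s ≠ V)
    {y : L} (hy : y ∈ ball (wv (some P) σ) V s) (hyW : y ∉ W)
    (hk' : (aeval Ψ a : Module.End Fq L) (f y) = 0) {κ : ℕ}
    (h3 : κ ≤ finrank Fq (W ⊓ ball (wv (some P) σ) V s : Submodule Fq L)) :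
    ((Fintype.card Fq : ℕ) : ℝ) ^ κ * ((pdeg (some P) : ℝ) / D.factorial) ≤
      s0' (some P) σ - sst' (some P) σ := by
  have : FiniteDimensional Fq (W ⊓ ball (wv (some P) σ) V s : Submodule Fq L) :=
    Submodule.finiteDimensional_of_le inf_le_left
  obtain ⟨sB, hsB⟩ := exists_finset (W ⊓ ball (wv (some P) σ) V s)
  obtain ⟨x, hx, hxW, h4⟩ := spread_prod (wv (some P) σ)
    (fun x _ y _ hx hy hxy => h.gap (some P) σ hx hy hxy) hle hsW hsB h1 hy hyW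
  rw [← hf, ← hf] at h4
  have h5 := hd'.top_le (some P) σ (f x) ⟨x, hx, rfl⟩
  rw [← log_le_iff_le_exp ((wv (some P) σ).ne_zero_iff.mpr
    fun e => hxW (by rwa [← hker]))] at h5
  have h6 := hd'.lower_pt h hP σ (x := f y) (fun e => hyW (by rwa [← hker])) hk'
  have h7 : (Fintype.card Fq) ^ κ ≤ sB.card := by
    rw [card_finset_eq _ hsB]
    exact Nat.pow_le_pow_right (by have := two_le_q Fq; omega) h3
  have h8 : ((Fintype.card Fq : ℕ) : ℝ) ^ κ ≤ sB.card := by exact_mod_cast h7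
  have h9 : ((Fintype.card Fq : ℕ) : ℝ) ^ κ *
      ((pdeg (some P) : ℝ) / D.factorial) ≤
      sB.card * ((pdeg (some P) : ℝ) / D.factorial) := by gcongr
  linarith

omit [Fintype Fq] in
lemma sum_deg_le {a : Fq[X]} (ha : a ≠ 0) (T : Finset (MI Fq)) (hT : ∀ P ∈ T, P.1 ∣ a) :
    ∑ P ∈ T, P.1.natDegree ≤ a.natDegree := by
  rw [← natDegree_prod_of_monic _ _ fun P _ => P.2.1]
  refine natDegree_le_of_dvd (Finset.prod_dvd_of_coprime ?_ hT) ha
  intro P _ P' _ hne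
  exact (P.2.2.coprime_iff_not_dvd).mpr fun hd => hne (MI.eq_of_dvd hd)

end Pool.Agent.P.MP_43acf5_nt
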