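import Pool.Agent.P.MP_43acf5_nt.Q.Isog

/-! No bad place outside the annihilator, from two isogenies. -/

namespace Pool.Agent.P.MP_43acf5_nt

open Module WithZero Polynomial

variable {Fq : Type*} [Field Fq] [Fintype Fq] {L : Type*} [Field L] [Algebra (RatFunc Fq) L]
  [Algebra Fq L] [IsScalarTower Fq (RatFunc Fq) L] {ι : Type*} [Fintype ι] {D : ℕ}
  {wv : Pl Fq → ι → Valuation L ℝᵐ⁰}
  {d r : ℕ} {Φ : Module.End Fq L} {V : Submodule Fq L}

omit [Fintype Fq] in
lemma sum_pdeg_special {a : Fq[X]} (ha : a ≠ 0) (U : Finset (Pl Fq))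
    (hU : ∀ v ∈ U, ¬ ∃ P : MI Fq, v = some P ∧ ¬ P.1 ∣ a) :
    ∑ v ∈ U, (pdeg v : ℝ) ≤ a.natDegree + 1 := by
  classical
  have h1 : U ⊆ insert none (U.eraseNone.image some) := by
    intro v hv
    cases v with
    | none => exact Finset.mem_insert_self _ _
    | some P =>
      exact Finset.mem_insert_of_mem (Finset.mem_image_of_mem _ (Finset.mem_eraseNone.mpr hv))
  refine (Finset.sum_le_sum_of_subset_of_nonneg h1 fun v _ _ => Nat.cast_nonneg _).trans ?_
  rw [Finset.sum_insert (by simp), Finset.sum_image fun _ _ _ _ e => Option.some.inj e]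
  have h2 := sum_deg_le ha U.eraseNone (fun P hP => by
    by_contra hc
    exact hU _ (Finset.mem_eraseNone.mp hP) ⟨P, rfl, hc⟩)
  have h3 : ((∑ P ∈ U.eraseNone, P.1.natDegree : ℕ) : ℝ) ≤ a.natDegree := by exact_mod_cast h2
  simp only [pdeg]
  push_cast at h3 ⊢
  linarith

lemma key_gen (h : Fam D wv) (hΦ : IsLin Fq (th Fq L d) r Φ) (hr : 0 < r)
    [FiniteDimensional Fq V] (hV : ∀ x ∈ V, Φ x ∈ V) {a : Fq[X]} (ha : a ≠ 0)
    (hk : ∀ x ∈ V, (aeval Φ a : Module.End Fq L) x = 0) {n m s κ : ℕ} (hn1 : finrank Fq V ≤ n)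
    (hn2 : a.natDegree ≤ n) (hm0 : 16 * r * D ^ 2 ≤ m)
    (hms : (Fintype.card Fq) ^ d * m < (Fintype.card Fq) ^ s) (W : Bool → Submodule Fq L)
    (hWle : ∀ j, W j ≤ V) (hWst : ∀ j, ∀ x ∈ W j, Φ x ∈ W j)
    (hWr : ∀ j, m * (r * m) + finrank Fq (W j) < finrank Fq V) (good : MI Fq → Prop)
    (hgood : ∀ P : MI Fq, ¬ P.1 ∣ a → good P)
    (hB : ∀ P, good P → ∃ (V' : Submodule Fq L) (a' : Fq[X]), V' ≤ V ∧ (∀ x ∈ V', Φ x ∈ V') ∧
      ¬ P.1 ∣ a' ∧ (∀ x ∈ V', (aeval Φ a' : Module.End Fq L) x = 0) ∧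
      r * κ + r < finrank Fq V' ∧ ∀ B : Submodule Fq L, B ≤ V → (∀ x ∈ B, Φ x ∈ B) → B ≠ V →
        finrank Fq (B ⊓ V' : Submodule Fq L) + r * κ < finrank Fq V' ∨
          ∃ j, W j ⊔ B ≠ V ∧ ¬ B ⊓ V' ≤ W j ∧ κ ≤ finrank Fq (W j ⊓ B : Submodule Fq L))
    (N3 : D.factorial *
      (48 * D * ((Fintype.card Fq) ^ d * n) +
        3 * (Fintype.card Fq) ^ s * (n + 2)) < (Fintype.card Fq) ^ κ) :
    ∃ sst s0, DatF wv d r Φ V sst s0 ∧
      ∀ P, good P → ∀ σ, ¬ 0 < max (s0 (some P) σ - sst (some P) σ) 0 := by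
  classical
  have : Infinite (RatFunc Fq) := Infinite.of_injective _ (RatFunc.algebraMap_injective Fq)
  have : Infinite L := Infinite.of_injective _ (algebraMap (RatFunc Fq) L).injective
  have hWfd : ∀ j, FiniteDimensional Fq (W j) := fun j =>
    Submodule.finiteDimensional_of_le (hWle j)
  choose f Ψ hΨ hcomm hker hprod using fun j => exists_isogeny hΦ (W j) (hWst j)
  choose sW hsW using fun j => exists_finset (W j)
  have hV' : ∀ j, ∀ x ∈ V.map (f j), Ψ j x ∈ V.map (f j) := by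
    rintro j _ ⟨x, hx, rfl⟩
    exact ⟨Φ x, hV x hx, hcomm j x⟩
  have hk' : ∀ j, ∀ x ∈ V.map (f j), (aeval (Ψ j) a : Module.End Fq L) x = 0 := by
    rintro j _ ⟨x, hx, rfl⟩
    rw [aeval_comm (hcomm j), hk x hx, map_zero]
  have hV'n := fun j => finrank_map_add (hker j) (hWle j)
  have hmr : r ≤ m * (r * m) := by
    have hD : 0 < D := h.card_pos.trans_le h.card_le
    have hm : 0 < m := lt_of_lt_of_le (by positivity) hm0
    calc r = 1 * (r * 1) := by ring
      _ ≤ m * (r * m) := by gcongr <;> omega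
  obtain ⟨sst, s0, hd⟩ := exists_datF wv hΦ V (by have := hWr true; omega) ha hk
  choose sst' s0' hd' using fun j => exists_datF wv (hΨ j) (V.map (f j))
    (by have := hV'n j; have := hWr j; omega) ha (hk' j)
  obtain ⟨S1, hS1⟩ := hd.ineq_gen h hΦ hr hV ha hk hn1 hn2 hm0 hms (by have := hWr true; omega)
  choose S2 hS2 using fun j => (hd' j).ineq_gen h (hΨ j) hr (hV' j) ha (hk' j) (n := n)
    (by have := hV'n j; omega) hn2 hm0 hms (by have := hV'n j; have := hWr j; omega)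
  set q : ℝ := ((Fintype.card Fq : ℕ) : ℝ) with hq
  set A : Pl Fq → ι → ℝ := fun v σ => max (s0 v σ - sst v σ) 0 with hA
  set A' : Bool → Pl Fq → ι → ℝ :=
    fun j v σ => max (s0' j v σ - sst' j v σ) 0 with hA'
  have hA0 : ∀ v σ, 0 ≤ A v σ := fun v σ => le_max_right _ _
  have hA'0 : ∀ j v σ, 0 ≤ A' j v σ := fun j v σ => le_max_right _ _
  have hsA0 : ∀ v, 0 ≤ ∑ σ, A v σ := fun v => Finset.sum_nonneg fun σ _ => hA0 v σ
  have hsA'0 : ∀ j v, 0 ≤ ∑ σ, A' j v σ := fun j v => Finset.sum_nonneg fun σ _ => hA'0 j v σ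
  have hlarge : ∀ P : MI Fq, good P → (∃ σ, 0 < A (some P) σ) →
      q ^ κ * ((pdeg (some P) : ℝ) / D.factorial) ≤
        ∑ σ, A (some P) σ + ∑ σ, A' true (some P) σ + ∑ σ, A' false (some P) σ := by
    rintro P hP ⟨σ, hσ⟩
    obtain ⟨V', a', hV'le, hV'st, hPa, hka, hκ, hB'⟩ := hB P hP
    have : FiniteDimensional Fq V' := Submodule.finiteDimensional_of_le hV'le
    have hss : sst (some P) σ < s0 (some P) σ := by simpa [hA] using hσ
    have e1 := Finset.single_le_sum (f := A (some P)) (fun σ _ => hA0 _ σ) (Finset.mem_univ σ)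
    have e3 : s0 (some P) σ - sst (some P) σ ≤ A (some P) σ := le_max_left _ _
    rcases hB' (ball (wv (some P) σ) V (sst (some P) σ)) (ball_le _ _ _)
      (fun y hy => ⟨hV y hy.1, (hd.loc _ σ).stable (h.th_some d P σ) le_rfl hy.2⟩) (by
        intro e
        obtain ⟨x, hx, hx'⟩ := hd.top_ex (some P) σ
        have hx2 : x ∈ ball (wv (some P) σ) V (sst (some P) σ) := by
          rw [e]; exact hx
        have := hx2.2
        rw [hx', exp_le_exp] at this
        linarith) with h1 | ⟨j, h1, h2, h3⟩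
    · have h2 : finrank Fq (ball (wv (some P) σ) V' (sst (some P) σ)) ≤
          finrank Fq (ball (wv (some P) σ) V (sst (some P) σ) ⊓ V' : Submodule Fq L) :=
        Submodule.finrank_mono fun x hx => ⟨⟨hV'le hx.1, hx.2⟩, hx.1⟩
      have := (hd.loc (some P) σ).largeq (hd.shr _ σ) V' hV'st
        (fun x hx hx0 => hd.lower_pt h hPa σ hx0 (hka x hx))
        (fun x hx => hd.top_le _ _ x (hV'le hx)) hss.le
        (fun x _ y _ hx hy hxy => h.gap _ σ hx hy hxy) (j := κ) (by omega) hκ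
      linarith [hsA'0 true (some P), hsA'0 false (some P)]
    · obtain ⟨y, hy, hyW⟩ := SetLike.not_le_iff_exists.mp h2
      have h4 := (hd' j).large_isog_gen h (hWle j) (hker j) (hsW j) (hprod j _ (hsW j))
        hPa σ h1 hy.1 hyW (by rw [aeval_comm (hcomm j), hka y hy.2, map_zero]) h3
      have e2 := Finset.single_le_sum (f := A' j (some P)) (fun σ _ => hA'0 j _ σ)
        (Finset.mem_univ σ)
      have e4 : s0' j (some P) σ - sst' j (some P) σ ≤ A' j (some P) σ := le_max_left _ _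
      cases j <;> linarith [hsA'0 true (some P), hsA'0 false (some P), hsA0 (some P)]
  refine ⟨sst, s0, hd, fun P0 hP0 σ0 hσ0 => ?_⟩
  set S := insert (some P0) (S1 ∪ (S2 true ∪ S2 false))
  have i1 := hS1 S (Finset.subset_union_left.trans (Finset.subset_insert _ _))
  have i2 := hS2 true S (Finset.subset_union_left.trans
    (Finset.subset_union_right.trans (Finset.subset_insert _ _)))
  have i3 := hS2 false S (Finset.subset_union_right.trans
    (Finset.subset_union_right.trans (Finset.subset_insert _ _)))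
  set T := S.filter fun v => (∃ P : MI Fq, v = some P ∧ good P) ∧ ∃ σ, 0 < A v σ
  set dT := ∑ v ∈ T, (pdeg v : ℝ) with hdT
  have hT1 : 1 ≤ dT := by
    have : some P0 ∈ T := Finset.mem_filter.mpr
      ⟨Finset.mem_insert_self _ _, ⟨P0, rfl, hP0⟩, σ0, hσ0⟩
    have h1 := Finset.single_le_sum (f := fun v => (pdeg v : ℝ))
      (fun v _ => Nat.cast_nonneg _) this
    have h2 : (1 : ℝ) ≤ pdeg (some P0) := by exact_mod_cast pdeg_pos (some P0)
    exact h2.trans h1
  have hsub : ∀ U : Finset (Pl Fq),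
      (∀ v ∈ U, (∃ P : MI Fq, v = some P ∧ ¬ P.1 ∣ a) → v ∈ T) →
      ∑ v ∈ U, (pdeg v : ℝ) ≤ dT + (n + 1) := by
    intro U hU
    rw [← Finset.sum_filter_add_sum_filter_not U fun v => ∃ P : MI Fq, v = some P ∧ ¬ P.1 ∣ a]
    refine add_le_add (Finset.sum_le_sum_of_subset_of_nonneg (fun v hv =>
      hU v (Finset.mem_filter.mp hv).1 (Finset.mem_filter.mp hv).2)
      fun v _ _ => Nat.cast_nonneg _) ?_
    refine (sum_pdeg_special ha _ fun v hv => (Finset.mem_filter.mp hv).2).trans ?_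
    have : (a.natDegree : ℝ) ≤ n := by exact_mod_cast hn2
    linarith
  have j1 := hsub (S.filter fun v => ∃ σ, 0 < A v σ) (by
    rintro v hv ⟨P, rfl, hP⟩
    exact Finset.mem_filter.mpr
      ⟨(Finset.mem_filter.mp hv).1, ⟨P, rfl, hgood P hP⟩, (Finset.mem_filter.mp hv).2⟩)
  have j2 := fun j => hsub (S.filter fun v => ∃ σ, 0 < A' j v σ) (by
    rintro v hv ⟨P, rfl, hP⟩
    have hv' := Finset.mem_filter.mp hv
    refine Finset.mem_filter.mpr ⟨hv'.1, ⟨P, rfl, hgood P hP⟩, ?_⟩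
    obtain ⟨σ, hσ⟩ := hv'.2
    refine ⟨σ, ?_⟩
    by_contra hcon
    exact hd.const_isog_gen h (hd' j) (hV' j) (by have := hV'n j; have := hWr j; omega)
      (hWle j) (hker j) (hsW j) (hprod j _ (hsW j)) hk hP σ hcon hσ)
  have j3 : q ^ κ * (dT / D.factorial) ≤ ∑ v ∈ S, ∑ σ, A v σ + ∑ v ∈ S, ∑ σ, A' true v σ +
      ∑ v ∈ S, ∑ σ, A' false v σ := by
    rw [← Finset.sum_add_distrib, ← Finset.sum_add_distrib, hdT, Finset.sum_div, Finset.mul_sum]
    refine le_trans (Finset.sum_le_sum fun v hv => ?_)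
      (Finset.sum_le_sum_of_subset_of_nonneg (Finset.filter_subset _ S) fun v _ _ =>
        add_nonneg (add_nonneg (hsA0 v) (hsA'0 true v)) (hsA'0 false v))
    obtain ⟨⟨P, rfl, hP⟩, hv'⟩ := (Finset.mem_filter.mp hv).2
    exact hlarge P hP hv'
  have N3' : (D.factorial : ℝ) * (48 * D * ((((Fintype.card Fq) ^ d : ℕ) : ℝ) * n) +
      3 * (((Fintype.card Fq) ^ s : ℕ) : ℝ) * (n + 2)) < q ^ κ := by
    rw [hq]; exact_mod_cast N3
  set N : ℝ := (((Fintype.card Fq) ^ d : ℕ) : ℝ)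
  set Q : ℝ := (((Fintype.card Fq) ^ s : ℕ) : ℝ)
  have hQ0 : 0 ≤ Q := Nat.cast_nonneg _
  have hN0 : 0 ≤ N := Nat.cast_nonneg _
  have hF : (0 : ℝ) < D.factorial := by positivity
  have j4 : q ^ κ * (dT / D.factorial) ≤ 48 * D * (N * n) + 3 * Q * (dT + (n + 1)) := by
    have := mul_le_mul_of_nonneg_left j1 hQ0
    have := mul_le_mul_of_nonneg_left (j2 true) hQ0
    have := mul_le_mul_of_nonneg_left (j2 false) hQ0
    linarith
  have j5 : 48 * D * (N * n) + 3 * Q * (dT + (n + 1)) ≤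
      (48 * D * (N * n) + 3 * Q * (n + 2)) * dT := by
    have a1 : 0 ≤ 48 * D * (N * n) * (dT - 1) := by
      have : 0 ≤ dT - 1 := by linarith
      positivity
    have a2 : 0 ≤ 3 * Q * (n + 1) * (dT - 1) := by
      have : 0 ≤ dT - 1 := by linarith
      positivity
    nlinarith
  have j6 := j4.trans j5
  rw [← mul_div_assoc, div_le_iff₀ hF] at j6
  have j7 := mul_lt_mul_of_pos_right N3' (show 0 < dT by linarith)
  nlinarith

end Pool.Agent.P.MP_43acf5_nt
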