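import Pool.Agent.P.MP_43acf5_nt.Q.Key

/-! The general count and the primary case. -/

namespace Pool.Agent.P.MP_43acf5_nt

open Module WithZero Polynomial

variable {Fq : Type*} [Field Fq] [Fintype Fq] {L : Type*} [Field L] [Algebra (RatFunc Fq) L]
  [Algebra Fq L] [IsScalarTower Fq (RatFunc Fq) L] {ι : Type*} [Fintype ι] {D : ℕ}
  {wv : Pl Fq → ι → Valuation L ℝᵐ⁰}
  {d r : ℕ} {Φ : Module.End Fq L}

omit [IsScalarTower Fq (RatFunc Fq) L] in
lemma Fam.count_set (h : Fam D wv) (V : Submodule Fq L) [FiniteDimensional Fq V] (Y : Finset L)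
    (hY : ∀ x ∈ Y, x ∈ V ∧ x ≠ 0) (hV : 0 < finrank Fq V) (P : MI Fq)
    (hc : ∀ P' ≠ P, ∀ σ, ∀ x ∈ Y, ∀ y ∈ Y, wv (some P') σ x = wv (some P') σ y) :
    Y.card ≤ (Fintype.card Fq) ^ D * D * finrank Fq V ^ (2 * D) := by
  classical
  obtain ⟨U, hU1, hU2⟩ := h.units
  set f : L → (Bool × ι) → ℝᵐ⁰ := fun x i => wv (if i.1 then none else some P) i.2 x with hf
  have h2 : (Y.image f).card ≤ finrank Fq V ^ (2 * D) := by
    have : Y.image f ⊆ Fintype.piFinset fun i : Bool × ι =>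
        Y.image (wv (if i.1 then none else some P) i.2) := by
      intro b hb
      obtain ⟨x, hx, rfl⟩ := Finset.mem_image.mp hb
      exact Fintype.mem_piFinset.mpr fun i => Finset.mem_image_of_mem _ hx
    refine (Finset.card_le_card this).trans ?_
    rw [Fintype.card_piFinset]
    refine (Finset.prod_le_pow_card _ _ _ fun i _ => card_image_le_finrank _ V Y hY).trans ?_
    rw [Finset.card_univ, Fintype.card_prod, Fintype.card_bool]
    exact Nat.pow_le_pow_right hV (Nat.mul_le_mul_left _ h.card_le)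
  have h3 := Finset.card_le_mul_card_image (f := f) Y U.card (by
    intro b hb
    obtain ⟨y, hy, rfl⟩ := Finset.mem_image.mp hb
    refine Finset.card_le_card_of_injOn (fun x => x / y) ?_ ?_
    · intro x hx
      have hx' := Finset.mem_filter.mp hx
      refine hU2 _ fun v σ => ?_
      have : wv v σ x = wv v σ y := by
        cases v with
        | none => exact congrFun hx'.2 (true, σ)
        | some P' =>
          by_cases hP : P' = P
          · rw [hP]; exact congrFun hx'.2 (false, σ)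
          · exact hc P' hP σ x hx'.1 y hy
      rw [map_div₀, this]
      exact div_self_le_one _
    · intro a _ b _ hab
      exact (div_left_inj' (hY y hy).2).mp hab)
  exact h3.trans (Nat.mul_le_mul hU1 h2)

lemma prim_false (h : Fam D wv) (hΦ : IsLin Fq (th Fq L d) r Φ) (hr : 0 < r) {x0 : L} {P : MI Fq} {k : ℕ}
    (hann : ∀ a, (aeval Φ a : Module.End Fq L) x0 = 0 ↔ P.1 ^ k ∣ a) {n m s : ℕ}
    (hn : n = k * P.1.natDegree) (hm0 : 16 * r * D ^ 2 ≤ m)
    (hms : (Fintype.card Fq) ^ d * m < (Fintype.card Fq) ^ s) (N1 : 2 * (m * (r * m)) < n)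
    (N2 : 6 * r < n)
    (N3 : D.factorial *
      (48 * D * ((Fintype.card Fq) ^ d * n) +
        3 * (Fintype.card Fq) ^ s * (n + 2)) < (Fintype.card Fq) ^ (n / (3 * r)))
    (N4 : 1 + (Fintype.card Fq) ^ D * D *
        n ^ (2 * D) < (Fintype.card Fq) ^ n) : False := by
  classical
  set δ := P.1.natDegree with hδ
  set j := (k + 1) / 2 with hj
  have hjk : j ≤ k := by omega
  set x1 := (aeval Φ (P.1 ^ j) : Module.End Fq L) x0 with hx1
  obtain ⟨hVfd, hVn⟩ := finrank_cyc (P.2.1.pow k) hann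
  obtain ⟨hWfd, hWn⟩ := finrank_cyc (Φ := Φ) (x := x1) (P.2.1.pow (k - j)) (by
    intro a
    rw [hx1, aeval_aeval, hann]
    conv_lhs => rw [show k = (k - j) + j by omega, pow_add]
    exact mul_dvd_mul_iff_right (pow_ne_zero _ P.2.2.ne_zero))
  rw [natDegree_pow, ← hδ] at hVn hWn
  rw [← hn] at hVn
  set V := cyc Φ x0
  set W := cyc Φ x1
  have hle : W ≤ V := by
    intro z hz
    obtain ⟨b, rfl⟩ := mem_cyc.mp hz
    exact mem_cyc.mpr ⟨b * P.1 ^ j, by rw [hx1, aeval_aeval]⟩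
  have hk : ∀ x ∈ V, (aeval Φ (P.1 ^ k) : Module.End Fq L) x = 0 := by
    intro z hz
    obtain ⟨b, rfl⟩ := mem_cyc.mp hz
    rw [aeval_aeval, hann]
    exact dvd_mul_right _ _
  have hW2 : 2 * finrank Fq W ≤ n := by
    rw [hWn, hn, ← mul_assoc]; exact Nat.mul_le_mul_right _ (by omega)
  set κ := n / (3 * r) with hκ
  have hκ1 : 3 * (r * κ) ≤ n := by
    rw [← mul_assoc]; exact Nat.mul_div_le n (3 * r)
  obtain ⟨sst, s0, hd, hc⟩ := key_gen (V := V) h hΦ hr (cyc_stable Φ x0)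
    (pow_ne_zero k P.2.2.ne_zero) hk hVn.le (by rw [natDegree_pow, hn]) hm0 hms (fun _ => W)
    (fun _ => hle) (fun _ => cyc_stable Φ x1) (fun _ => by omega) (κ := κ)
    (fun P' => ¬ P'.1 ∣ P.1 ^ k) (fun _ hP => hP) (fun P' hP =>
      ⟨V, P.1 ^ k, le_rfl, cyc_stable Φ x0, hP, hk, by omega, by
      intro B hBV hB hne
      rw [inf_eq_left.mpr hBV]
      by_cases hBW : B ≤ W
      · have := Submodule.finrank_mono hBW
        exact Or.inl (by omega)
      · obtain ⟨h1, h2⟩ := cyc_dichotomy P.2.2 ((hann _).mpr dvd_rfl) hB hBV hne hBW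
        refine Or.inr ⟨true, by rwa [sup_eq_right.mpr h1], hBW, ?_⟩
        rw [inf_eq_left.mpr h1]
        change κ ≤ finrank Fq W
        have h5 : n ≤ 3 * finrank Fq W := by
          rw [hWn, hn, ← mul_assoc]; exact Nat.mul_le_mul_right _ (by omega)
        have h6 : κ ≤ r * κ := Nat.le_mul_of_pos_left _ hr
        omega⟩) N3
  obtain ⟨sV', hsV'⟩ := exists_finset V
  have hsV : ∀ x ∈ sV'.erase 0, x ∈ V ∧ x ≠ 0 := by
    intro x; simp [hsV', and_comm]
  have h1 : (sV'.erase 0).card + 1 = (Fintype.card Fq) ^ finrank Fq V := by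
    rw [Finset.card_erase_add_one ((hsV' 0).mpr V.zero_mem), card_finset_eq V hsV']
  have h2 := h.count_set V _ hsV (by omega) P (fun P' hP σ x hx y hy => by
    have hP' : ¬ P'.1 ∣ P.1 ^ k := fun hd => hP (MI.eq_of_dvd (P'.2.2.prime.dvd_of_dvd_pow hd))
    rw [hd.const_gen h hk hP' σ (hc P' hP' σ) (hsV x hx).1 (hsV x hx).2,
      hd.const_gen h hk hP' σ (hc P' hP' σ) (hsV y hy).1 (hsV y hy).2])
  rw [hVn] at h1 h2
  omega

end Pool.Agent.P.MP_43acf5_nt
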